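import Pool.Agent.P.MP_894816_co.Defs

-- part Pool.Agent.P.MP_894816_co.Words
section

namespace Pool.Agent.P.MP_894816_co

open Equiv

/-- adjacent transposition of positions `k`, `k+1` -/
def s (k : ℕ) : Perm ℕ := swap k (k + 1)

lemma s_apply (k p : ℕ) : s k p = if p = k then k + 1 else if p = k + 1 then k else p := by
  unfold s; rw [swap_apply_def]

/-- the permutation of a word -/
def pr (w : List ℕ) : Perm ℕ := (w.map s).prod

@[simp] lemma pr_nil : pr [] = 1 := rfl
@[simp] lemma pr_cons (k : ℕ) (w : List ℕ) : pr (k :: w) = s k * pr w := by simp [pr]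
@[simp] lemma pr_append (v w : List ℕ) : pr (v ++ w) = pr v * pr w := by simp [pr]

/-- number of even letters -/
def cost (w : List ℕ) : ℕ := w.countP (fun k => decide (k % 2 = 0))

@[simp] lemma cost_nil : cost [] = 0 := rfl
lemma cost_cons (k : ℕ) (w : List ℕ) : cost (k :: w) = cost w + if k % 2 = 0 then 1 else 0 := by
  simp [cost, List.countP_cons]
@[simp] lemma cost_append (v w : List ℕ) : cost (v ++ w) = cost v + cost w := by simp [cost]
lemma cost_le_length (w : List ℕ) : cost w ≤ w.length := List.countP_le_length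

/-- reversal of the positions `1..N` -/
def rvf (N p : ℕ) : ℕ := if 1 ≤ p ∧ p ≤ N then N + 1 - p else p

lemma rvf_invol (N : ℕ) : Function.Involutive (rvf N) := by
  intro p; unfold rvf; split_ifs <;> omega

def rv (N : ℕ) : Perm ℕ := (rvf_invol N).toPerm

lemma rv_apply (N p : ℕ) : rv N p = if 1 ≤ p ∧ p ≤ N then N + 1 - p else p := rfl

lemma rv_mul_self (N : ℕ) : rv N * rv N = 1 := by
  ext p; exact rvf_invol N p

/-- all letters lie in `[1, N-1]` -/
def Inb (N : ℕ) (w : List ℕ) : Prop := ∀ k ∈ w, 1 ≤ k ∧ k + 1 ≤ N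

lemma inb_nil (N : ℕ) : Inb N [] := by simp [Inb]
lemma inb_cons {N k : ℕ} {w : List ℕ} : Inb N (k :: w) ↔ (1 ≤ k ∧ k + 1 ≤ N) ∧ Inb N w := by
  simp [Inb]
lemma inb_append {N : ℕ} {v w : List ℕ} : Inb N (v ++ w) ↔ Inb N v ∧ Inb N w := by
  simp only [Inb, List.mem_append]
  exact ⟨fun h => ⟨fun k hk => h k (Or.inl hk), fun k hk => h k (Or.inr hk)⟩,
    fun h k hk => hk.elim (h.1 k) (h.2 k)⟩
lemma Inb.mono {N M : ℕ} {w : List ℕ} (h : Inb N w) (hNM : N ≤ M) : Inb M w :=
  fun k hk => ⟨(h k hk).1, (h k hk).2.trans hNM⟩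

/-- reversal of `N` wires by a word with at most `c` even letters -/
def Good (N c : ℕ) : Prop := ∃ w, Inb N w ∧ pr w = rv N ∧ cost w ≤ c

lemma Good.mono {N c d : ℕ} (h : Good N c) (hcd : c ≤ d) : Good N d := by
  obtain ⟨w, h1, h2, h3⟩ := h; exact ⟨w, h1, h2, h3.trans hcd⟩

lemma pr_fix {w : List ℕ} {p : ℕ} (h : ∀ k ∈ w, p ≠ k ∧ p ≠ k + 1) : pr w p = p := by
  induction w with
  | nil => rfl
  | cons k w ih =>
    rw [pr_cons, Perm.mul_apply, ih fun j hj => h j (List.mem_cons_of_mem _ hj), s_apply]
    have := h k List.mem_cons_self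
    simp [this.1, this.2]

lemma s_comm {j k : ℕ} (h : j + 2 ≤ k) : s j * s k = s k * s j := by
  ext p; simp only [Perm.mul_apply, s_apply]; split_ifs <;> omega

lemma s_comm_pr {k : ℕ} {w : List ℕ} (h : ∀ j ∈ w, j + 2 ≤ k ∨ k + 2 ≤ j) :
    s k * pr w = pr w * s k := by
  induction w with
  | nil => simp
  | cons j w ih =>
    have h1 : s k * s j = s j * s k :=
      (h j List.mem_cons_self).elim (fun h => (s_comm h).symm) s_comm
    rw [pr_cons, ← mul_assoc, h1, mul_assoc, ih fun i hi => h i (List.mem_cons_of_mem _ hi),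
      mul_assoc]

/-- conjugating a word letter by letter -/
lemma pr_map_conj (g : Perm ℕ) (f : ℕ → ℕ) (w : List ℕ) (h : ∀ k ∈ w, g * s k = s (f k) * g) :
    g * pr w = pr (w.map f) * g := by
  induction w with
  | nil => simp
  | cons k w ih =>
    rw [List.map_cons, pr_cons, pr_cons, ← mul_assoc, h k List.mem_cons_self, mul_assoc,
      ih fun i hi => h i (List.mem_cons_of_mem _ hi), mul_assoc]

lemma rv_s {N k : ℕ} (h : 1 ≤ k ∧ k + 1 ≤ N) : rv N * s k = s (N - k) * rv N := by
  ext p; simp only [Perm.mul_apply, s_apply, rv_apply]; split_ifs <;> omega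

lemma pr_flip {N : ℕ} {w : List ℕ} (h : Inb N w) :
    pr (w.map (N - ·)) = rv N * pr w * rv N := by
  rw [pr_map_conj (rv N) (N - ·) w fun k hk => rv_s (h k hk), mul_assoc, rv_mul_self, mul_one]

lemma inb_flip {N : ℕ} {w : List ℕ} (h : Inb N w) : Inb N (w.map (N - ·)) := by
  intro k hk
  obtain ⟨j, hj, rfl⟩ := List.mem_map.1 hk
  have := h j hj; omega

lemma cost_map (f : ℕ → ℕ) (w : List ℕ) (h : ∀ k ∈ w, f k % 2 = k % 2) :
    cost (w.map f) = cost w := by
  induction w with
  | nil => rfl
  | cons k w ih =>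
    rw [List.map_cons, cost_cons, cost_cons, ih fun i hi => h i (List.mem_cons_of_mem _ hi),
      h k List.mem_cons_self]

/-! ### every permutation supported in an interval is a short word -/

/-- descending word `b-1, ..., a` -/
def dn (a : ℕ) : ℕ → List ℕ
  | 0 => []
  | m + 1 => (a + m) :: dn a m

lemma dn_mem {a m k : ℕ} (h : k ∈ dn a m) : a ≤ k ∧ k < a + m := by
  induction m with
  | zero => simp [dn] at h
  | succ m ih =>
    rcases List.mem_cons.1 h with h | h
    · omega
    · have := ih h; omega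

lemma dn_length (a m : ℕ) : (dn a m).length = m := by
  induction m with
  | zero => rfl
  | succ m ih => simp [dn, ih]

lemma pr_dn (a m p : ℕ) :
    pr (dn a m) p = if p = a then a + m else if a < p ∧ p ≤ a + m then p - 1 else p := by
  induction m with
  | zero => simp only [dn, pr_nil, Perm.one_apply]; split_ifs <;> omega
  | succ m ih => rw [dn, pr_cons, Perm.mul_apply, ih, s_apply]; split_ifs <;> omega

lemma exists_word (a : ℕ) : ∀ (m : ℕ) (g : Perm ℕ), (∀ p, p < a ∨ a + m < p → g p = p) →
    ∃ w, pr w = g ∧ (∀ k ∈ w, a ≤ k ∧ k < a + m) ∧ w.length ≤ m * m := by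
  intro m
  induction m with
  | zero =>
    intro g hg
    refine ⟨[], ?_, by simp, by simp⟩
    ext p
    by_cases hp : p = a
    · subst hp
      by_contra hne
      have h1 := hg (g p) (by simp only [pr_nil, Perm.one_apply] at hne; omega)
      exact hne (g.injective h1).symm
    · exact (hg p (by omega)).symm
  | succ m ih =>
    intro g hg
    set b := g.symm (a + (m + 1)) with hb
    have hgb : g b = a + (m + 1) := by simp [hb]
    have hb1 : a ≤ b ∧ b ≤ a + (m + 1) := by
      by_contra hc
      have := hg b (by omega); omega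
    obtain ⟨w, h1, h2, h3⟩ := ih (g * (pr (dn b (a + (m + 1) - b)))⁻¹) (by
      intro p hp
      by_cases hp' : p = a + (m + 1)
      · have : (pr (dn b (a + (m + 1) - b)))⁻¹ p = b := by
          rw [Perm.inv_eq_iff_eq, pr_dn]; simp; omega
        rw [Perm.mul_apply, this, hgb, hp']
      · have : (pr (dn b (a + (m + 1) - b)))⁻¹ p = p := by
          rw [Perm.inv_eq_iff_eq, pr_dn]; split_ifs <;> omega
        rw [Perm.mul_apply, this]; exact hg p (by omega))
    refine ⟨w ++ dn b (a + (m + 1) - b), by rw [pr_append, h1]; simp, ?_, ?_⟩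
    · intro k hk
      rcases List.mem_append.1 hk with hk | hk
      · have := h2 k hk; omega
      · have := dn_mem hk; omega
    · rw [List.length_append, dn_length]
      have : a + (m + 1) - b ≤ m + 1 := by omega
      nlinarith

lemma good_trivial (N : ℕ) : Good N (N * N) := by
  obtain ⟨w, h1, h2, h3⟩ := exists_word 1 (N - 1) (rv N) (by
    intro p hp; rw [rv_apply]; split_ifs <;> omega)
  refine ⟨w, fun k hk => by have := h2 k hk; omega, h1, (cost_le_length w).trans (h3.trans ?_)⟩
  exact Nat.mul_le_mul (Nat.sub_le _ _) (Nat.sub_le _ _)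

end Pool.Agent.P.MP_894816_co
end

-- part Pool.Agent.P.MP_894816_co.Rch
section

namespace Pool.Agent.P.MP_894816_co

open Equiv List

/-- Two rows of balls; exchanging the two balls of a column is free, exchanging two neighbours
of the first row costs one. -/
inductive Rch : ℕ → List ℤ → List ℤ → List ℤ → List ℤ → Prop
  | refl (X Y : List ℤ) : Rch 0 X Y X Y
  | flip (P Q X Y : List ℤ) (a b : ℤ) (h : P.length = Q.length) :
      Rch 0 (P ++ a :: X) (Q ++ b :: Y) (P ++ b :: X) (Q ++ a :: Y)
  | swap (P X Y : List ℤ) (a b : ℤ) : Rch 1 (P ++ a :: b :: X) Y (P ++ b :: a :: X) Y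
  | trans {c d : ℕ} {X Y X' Y' X'' Y'' : List ℤ} :
      Rch c X Y X' Y' → Rch d X' Y' X'' Y'' → Rch (c + d) X Y X'' Y''

lemma Rch.cast {c d : ℕ} {X Y Z W X' Y' Z' W' : List ℤ} (h : Rch c X Y Z W) (hc : c = d)
    (h1 : X = X') (h2 : Y = Y') (h3 : Z = Z') (h4 : W = W') : Rch d X' Y' Z' W' := by
  subst hc h1 h2 h3 h4; exact h

lemma Rch.len {c : ℕ} {X Y Z W : List ℤ} (h : Rch c X Y Z W) :
    Z.length = X.length ∧ W.length = Y.length := by
  induction h with
  | refl => exact ⟨rfl, rfl⟩
  | flip => simp
  | swap => simp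
  | trans _ _ i1 i2 => exact ⟨i2.1.trans i1.1, i2.2.trans i1.2⟩

lemma Rch.symm {c : ℕ} {X Y Z W : List ℤ} (h : Rch c X Y Z W) : Rch c Z W X Y := by
  induction h with
  | refl => exact .refl _ _
  | flip P Q X Y a b h => exact .flip P Q X Y b a h
  | swap P X Y a b => exact .swap P X Y b a
  | trans _ _ i1 i2 => exact (i2.trans i1).cast (add_comm _ _) rfl rfl rfl rfl

lemma Rch.ctx {c : ℕ} {X Y Z W : List ℤ} (h : Rch c X Y Z W) (A B S T : List ℤ)
    (hl : A.length = B.length) :
    Rch c (A ++ (X ++ S)) (B ++ (Y ++ T)) (A ++ (Z ++ S)) (B ++ (W ++ T)) := by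
  induction h with
  | refl => exact .refl _ _
  | flip P Q X Y a b h =>
    exact (Rch.flip (A ++ P) (B ++ Q) (X ++ S) (Y ++ T) a b (by simp [h, hl])).cast rfl
      (by simp) (by simp) (by simp) (by simp)
  | swap P X Y a b =>
    exact (Rch.swap (A ++ P) (X ++ S) (B ++ (Y ++ T)) a b).cast rfl (by simp) rfl (by simp) rfl
  | trans _ _ i1 i2 => exact i1.trans i2

lemma Rch.rev {c : ℕ} {X Y Z W : List ℤ} (h : Rch c X Y Z W) (hl : X.length = Y.length) :
    Rch c X.reverse Y.reverse Z.reverse W.reverse := by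
  induction h with
  | refl => exact .refl _ _
  | flip P Q X Y a b h =>
    exact (Rch.flip X.reverse Y.reverse P.reverse Q.reverse a b (by simp at hl ⊢; omega)).cast rfl
      (by simp) (by simp) (by simp) (by simp)
  | swap P X Y a b =>
    exact (Rch.swap X.reverse P.reverse Y.reverse b a).cast rfl (by simp) rfl (by simp) rfl
  | trans h1 _ i1 i2 => exact (i1 hl).trans (i2 (by rw [h1.len.1, h1.len.2, hl]))

lemma rch_flips (A : List ℤ) : ∀ (B P Q X Y : List ℤ), A.length = B.length → P.length = Q.length →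
    Rch 0 (P ++ (A ++ X)) (Q ++ (B ++ Y)) (P ++ (B ++ X)) (Q ++ (A ++ Y)) := by
  induction A with
  | nil => intro B P Q X Y h _; obtain rfl := List.length_eq_zero_iff.1 h.symm; exact .refl _ _
  | cons a A ih =>
    intro B P Q X Y h h'
    obtain _ | ⟨b, B⟩ := B
    · simp at h
    exact (Rch.flip P Q (A ++ X) (B ++ Y) a b h').trans
      ((ih B (P ++ [b]) (Q ++ [a]) X Y (by simpa using h) (by simp [h'])).cast rfl
        (by simp) (by simp) (by simp) (by simp))

lemma rch_up (u : ℤ) (D : List ℤ) : ∀ (P X Y : List ℤ),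
    Rch D.length (P ++ u :: (D ++ X)) Y (P ++ (D ++ u :: X)) Y := by
  induction D with
  | nil => intro P X Y; exact .refl _ _
  | cons d D ih =>
    intro P X Y
    exact ((Rch.swap P (D ++ X) Y u d).trans ((ih (P ++ [d]) X Y).cast rfl (by simp) rfl rfl
      rfl)).cast (by simp [add_comm]) rfl rfl (by simp) rfl

lemma rch_pass (U D : List ℤ) : ∀ (P X Y : List ℤ),
    Rch (U.length * D.length) (P ++ (U ++ (D ++ X))) Y (P ++ (D ++ (U ++ X))) Y := by
  induction U with
  | nil => intro P X Y; exact (Rch.refl _ _).cast (by simp) rfl rfl (by simp) rfl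
  | cons u U ih =>
    intro P X Y
    exact (((ih (P ++ [u]) X Y).cast rfl rfl rfl (by simp) rfl).trans
      (rch_up u D P (U ++ X) Y)).cast (by simp [add_mul]) (by simp) rfl rfl rfl

/-- interleaving -/
def il {α : Type} : List α → List α → List α
  | a :: A, b :: B => a :: b :: il A B
  | _, _ => []

lemma rch_unzip (V : List ℤ) : ∀ (x y M P Q S T : List ℤ), x.length = V.length →
    y.length = V.length → Q.length = P.length + V.length + M.length →
    Rch (V.length * M.length + V.length * V.length) (P ++ (V.reverse ++ (M ++ (x ++ T))))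
      (Q ++ (y ++ S)) (P ++ (M ++ (il x y ++ T))) (Q ++ (V ++ S)) := by
  induction V with
  | nil =>
    intro x y M P Q S T h1 h2 _
    obtain rfl := List.length_eq_zero_iff.1 h1
    obtain rfl := List.length_eq_zero_iff.1 h2
    exact (Rch.refl _ _).cast (by simp) rfl rfl (by simp [il]) rfl
  | cons u V ih =>
    intro x y M P Q S T h1 h2 h3
    obtain _ | ⟨a, x⟩ := x
    · simp at h1
    obtain _ | ⟨b, y⟩ := y
    · simp at h2
    simp only [List.length_cons] at h1 h2 h3
    have s1 := rch_up u (M ++ [a]) (P ++ V.reverse) (x ++ T) (Q ++ b :: (y ++ S))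
    have s2 := Rch.flip (P ++ V.reverse ++ (M ++ [a])) Q (x ++ T) (y ++ S) u b (by simp; omega)
    have s3 := ih x y (M ++ [a, b]) P (Q ++ [u]) S T (by omega) (by omega) (by simp; omega)
    exact (((s1.cast rfl rfl rfl (by simp) rfl).trans s2).trans
      (s3.cast rfl (by simp) (by simp) rfl rfl)).cast (by simp; ring) (by simp) (by simp)
      (by simp [il]) (by simp)

lemma rch_belt (V : List ℤ) : ∀ (D A B Yb Xb Yc Xc Q S T : List ℤ), D.length = V.length →
    Xb.length = Yb.length + 1 → Q.length = A.length + V.length → Yc.length = Yb.length →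
    Yc.reverse ++ Xc = (Yb.reverse ++ Xb).rotate V.length →
    Rch (V.length * (V.length + B.length + 2 * Yb.length))
      (A ++ (V.reverse ++ (Yb ++ (B ++ (D ++ T))))) (Q ++ (Xb ++ S))
      (A ++ (D ++ (Yc ++ (V.reverse ++ (B ++ T))))) (Q ++ (Xc ++ S)) := by
  induction V with
  | nil =>
    intro D A B Yb Xb Yc Xc Q S T h1 _ _ h4 h5
    obtain rfl := List.length_eq_zero_iff.1 h1
    obtain ⟨e1, rfl⟩ := List.append_inj (h5.trans (List.rotate_zero _)) (by simp [h4])
    obtain rfl := List.reverse_injective e1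
    exact (Rch.refl _ _).cast (by simp) rfl rfl (by simp) rfl
  | cons u V ih =>
    intro D A B Yb Xb Yc Xc Q S T h1 h2 h3 h4 h5
    obtain _ | ⟨d, D⟩ := D
    · simp at h1
    obtain _ | ⟨x0, Xt⟩ := Xb
    · simp at h2
    obtain ⟨Y', yl, e⟩ : ∃ Y' yl, x0 :: Yb = Y' ++ [yl] :=
      ⟨_, _, (List.dropLast_append_getLast (List.cons_ne_nil _ _)).symm⟩
    have hl : Y'.length = Yb.length := by simpa using (congrArg List.length e).symm
    simp only [List.length_cons] at h1 h2 h3 h5
    have s1 := rch_pass (V.reverse ++ u :: (Yb ++ B)) [d] A (D ++ T) (Q ++ (x0 :: Xt ++ S))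
    have s2 := rch_flips Yb Xt (A ++ d :: V.reverse ++ [u]) (Q ++ [x0]) (B ++ (D ++ T)) S
      (by omega) (by simp; omega)
    have s3 := rch_up u Xt (A ++ d :: V.reverse) (B ++ (D ++ T)) (Q ++ (Y' ++ yl :: S))
    have s4 := rch_flips Xt Y' (A ++ d :: V.reverse) Q (u :: (B ++ (D ++ T))) (yl :: S)
      (by omega) (by simp; omega)
    have s5 := ih D (A ++ [d]) (u :: B) Y' (Xt ++ [yl]) Yc Xc Q S T (by omega) (by simp; omega)
      (by simp; omega) (by omega) (by
        have e2 : Yb.reverse ++ x0 :: Xt = yl :: (Y'.reverse ++ Xt) := by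
          have := congrArg List.reverse e
          simp only [List.reverse_cons, List.reverse_append, List.reverse_nil, List.nil_append,
            List.singleton_append] at this
          rw [← List.singleton_append, ← List.append_assoc, this]; rfl
        rw [h5, e2, List.rotate_cons_succ, List.append_assoc])
    have e3 : Q ++ [x0] ++ (Yb ++ S) = Q ++ (Y' ++ yl :: S) := by
      rw [List.append_assoc, ← List.append_assoc [x0], List.singleton_append, e]; simp
    exact (((((s1.cast rfl rfl rfl (by simp) (by simp)).trans s2).cast rfl rfl rfl (by simp)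
      e3).trans s3).trans s4).trans (s5.cast rfl (by simp) (by simp) rfl rfl) |>.cast
      (by simp [hl, show Xt.length = Yb.length by omega]; ring) (by simp) rfl (by simp) rfl

/-! ### from rows to words -/

/-- the permutation `g` shows the rows `X`, `Y` from position `o` on -/
def Rep (g : Perm ℕ) : ℕ → List ℤ → List ℤ → Prop
  | o, a :: X, b :: Y => (g (o + 1) : ℤ) = a ∧ (g (o + 2) : ℤ) = b ∧ Rep g (o + 2) X Y
  | _, [], [] => True
  | _, _, _ => False

lemma rep_congr {g g' : Perm ℕ} (X : List ℤ) : ∀ (Y : List ℤ) (o : ℕ),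
    (∀ p, o < p → p ≤ o + 2 * X.length → g' p = g p) → Rep g o X Y → Rep g' o X Y := by
  induction X with
  | nil => intro Y o _ h; cases Y <;> exact h
  | cons a X ih =>
    intro Y o hg h
    obtain _ | ⟨b, Y⟩ := Y
    · exact h
    simp only [List.length_cons] at hg
    exact ⟨by rw [hg _ (by omega) (by omega), h.1], by rw [hg _ (by omega) (by omega), h.2.1],
      ih Y _ (fun p h1 h2 => hg p (by omega) (by omega)) h.2.2⟩

lemma rep_append {g : Perm ℕ} (P : List ℤ) : ∀ (Q X Y : List ℤ) (o : ℕ), P.length = Q.length →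
    (Rep g o (P ++ X) (Q ++ Y) ↔ Rep g o P Q ∧ Rep g (o + 2 * P.length) X Y) := by
  induction P with
  | nil => intro Q X Y o h; obtain rfl := List.length_eq_zero_iff.1 h.symm; simp [Rep]
  | cons a P ih =>
    intro Q X Y o h
    obtain _ | ⟨b, Q⟩ := Q
    · simp at h
    simp only [List.cons_append, Rep, ih Q X Y (o + 2) (by simpa using h), List.length_cons,
      and_assoc, show o + 2 + 2 * P.length = o + 2 * (P.length + 1) by ring]

lemma rch_word {c : ℕ} {X Y Z W : List ℤ} (h : Rch c X Y Z W) (hl : X.length = Y.length) :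
    ∃ w, Inb (2 * X.length) w ∧ cost w = c ∧ ∀ g, Rep g 0 X Y → Rep (g * pr w) 0 Z W := by
  induction h with
  | refl => exact ⟨[], inb_nil _, rfl, fun g hg => by simpa using hg⟩
  | flip P Q X Y a b h =>
    refine ⟨[2 * P.length + 1], inb_cons.2 ⟨by simp; omega, inb_nil _⟩,
      by rw [cost_cons, if_neg (by omega)]; rfl, fun g hg => ?_⟩
    rw [rep_append _ _ _ _ _ h] at hg ⊢
    simp only [Rep, pr_cons, pr_nil, mul_one, Perm.mul_apply, s_apply, zero_add] at hg ⊢
    refine ⟨rep_congr _ _ _ (fun p h1 h2 => ?_) hg.1, by simp [hg.2.2.1], by simp [hg.2.1],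
      rep_congr _ _ _ (fun p h1 h2 => ?_) hg.2.2.2⟩ <;>
    · rw [Perm.mul_apply, s_apply, if_neg (by omega), if_neg (by omega)]
  | swap P X Y a b =>
    obtain ⟨Q, c, d, Y', rfl, h⟩ : ∃ Q c d Y', Y = Q ++ c :: d :: Y' ∧ P.length = Q.length := by
      simp only [List.length_append, List.length_cons] at hl
      refine ⟨Y.take P.length, Y[P.length], Y[P.length + 1], Y.drop (P.length + 2), ?_,
        by simp; omega⟩
      rw [← List.drop_eq_getElem_cons, ← List.drop_eq_getElem_cons, List.take_append_drop]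
    have e : ∀ p, pr [2 * P.length + 1, 2 * P.length + 2, 2 * P.length + 1] p =
        if p = 2 * P.length + 1 then 2 * P.length + 3 else
          if p = 2 * P.length + 3 then 2 * P.length + 1 else p := fun p => by
      simp only [pr_cons, pr_nil, mul_one, Perm.mul_apply, s_apply]; split_ifs <;> omega
    refine ⟨[2 * P.length + 1, 2 * P.length + 2, 2 * P.length + 1],
      inb_cons.2 ⟨by simp; omega, inb_cons.2 ⟨by simp; omega, inb_cons.2 ⟨by simp; omega,
        inb_nil _⟩⟩⟩, ?_, fun g hg => ?_⟩
    · rw [cost_cons, cost_cons, cost_cons, if_neg (by omega), if_pos (by omega)]; rfl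
    rw [rep_append _ _ _ _ _ h] at hg ⊢
    simp only [Rep, Perm.mul_apply, e, zero_add] at hg ⊢
    refine ⟨rep_congr _ _ _ (fun p h1 h2 => ?_) hg.1, by simp [hg.2.2.2.1], by simp [hg.2.2.1],
      by simp [hg.2.1], by simp [hg.2.2.2.2.1], rep_congr _ _ _ (fun p h1 h2 => ?_) hg.2.2.2.2.2⟩ <;>
    · rw [Perm.mul_apply, e, if_neg (by omega), if_neg (by omega)]
  | trans h1 _ i1 i2 =>
    obtain ⟨v, a1, a2, a3⟩ := i1 hl
    obtain ⟨w, b1, b2, b3⟩ := i2 (by rw [h1.len.1, h1.len.2, hl])
    rw [h1.len.1] at b1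
    exact ⟨v ++ w, inb_append.2 ⟨a1, b1⟩, by rw [cost_append, a2, b2],
      fun g hg => by rw [pr_append, ← mul_assoc]; exact b3 _ (a3 g hg)⟩

lemma rep_map (g : Perm ℕ) (n : ℕ) : ∀ (f h : ℕ → ℤ) (o : ℕ),
    Rep g o ((List.range n).map f) ((List.range n).map h) ↔
      ∀ i < n, (g (o + 2 * i + 1) : ℤ) = f i ∧ (g (o + 2 * i + 2) : ℤ) = h i := by
  induction n with
  | zero => intro f h o; simp [Rep]
  | succ n ih =>
    intro f h o
    rw [List.range_succ, List.map_append, List.map_append, rep_append _ _ _ _ _ (by simp), ih]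
    simp only [List.map_cons, List.map_nil, Rep, List.length_map, List.length_range, and_true]
    exact ⟨fun H i hi => (Nat.lt_succ_iff_lt_or_eq.1 hi).elim (H.1 i) fun e => e ▸ H.2,
      fun H => ⟨fun i hi => H i (by omega), H n (by omega)⟩⟩

lemma good_of_rch {n c : ℕ} (h : Rch c ((List.range n).map fun i : ℕ => 1 + (i : ℤ) * 2)
    ((List.range n).map fun i : ℕ => 2 + (i : ℤ) * 2)
    ((List.range n).map fun i : ℕ => 2 * (n : ℤ) + (i : ℤ) * (-2))
    ((List.range n).map fun i : ℕ => 2 * (n : ℤ) - 1 + (i : ℤ) * (-2))) : Good (2 * n) c := by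
  obtain ⟨w, h1, h2, h3⟩ := rch_word h (by simp)
  simp only [List.length_map, List.length_range] at h1
  refine ⟨w, h1, ?_, h2.le⟩
  have h4 := (rep_map _ _ _ _ _).1 (h3 1 ((rep_map _ _ _ _ _).2 fun i _ => by
    simp only [Perm.one_apply]; omega))
  ext p
  rw [rv_apply]
  split_ifs with hp
  · have := h4 ((p - 1) / 2) (by omega)
    rw [one_mul] at this
    by_cases h5 : p % 2 = 1
    · rw [show 0 + 2 * ((p - 1) / 2) + 1 = p by omega] at this; omega
    · rw [show 0 + 2 * ((p - 1) / 2) + 2 = p by omega] at this; omega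
  · exact pr_fix fun k hk => by have := h1 k hk; omega

end Pool.Agent.P.MP_894816_co
end

-- part Pool.Agent.P.MP_894816_co.Sym
section

namespace Pool.Agent.P.MP_894816_co

/-- concatenation of the blocks `f 0, ..., f (n-1)` -/
def fl (f : ℕ → List ℤ) : ℕ → List ℤ
  | 0 => []
  | n + 1 => fl f n ++ f n

theorem fl_realize : True := by have := @fl.eq_def; trivial

lemma fl_congr {f g : ℕ → List ℤ} {n : ℕ} (h : ∀ i < n, f i = g i) : fl f n = fl g n := by
  induction n with
  | zero => rfl
  | succ n ih => rw [fl, fl, ih fun i hi => h i (by omega), h n (by omega)]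

lemma fl_succ' (f : ℕ → List ℤ) (n : ℕ) : fl f (n + 1) = f 0 ++ fl (fun i => f (i + 1)) n := by
  induction n with
  | zero => simp [fl]
  | succ n ih => rw [fl, ih, fl, List.append_assoc]

lemma fl_add (f : ℕ → List ℤ) (a b : ℕ) : fl f (a + b) = fl f a ++ fl (fun i => f (a + i)) b := by
  induction b with
  | zero => simp [fl]
  | succ b ih => rw [← add_assoc, fl, ih, fl, List.append_assoc]

lemma fl_rot (g : ℕ → ℤ) (f : ℕ → List ℤ) (n : ℕ) :
    fl (fun i => g i :: f i) (n + 1) = g 0 :: (fl (fun i => f i ++ [g (i + 1)]) n ++ f n) := by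
  induction n with
  | zero => simp [fl]
  | succ n ih => rw [fl, ih, fl]; simp

lemma fl_dbl (f : ℕ → List ℤ) (n : ℕ) :
    fl f (2 * n) = fl (fun i => f (2 * i) ++ f (2 * i + 1)) n := by
  induction n with
  | zero => rfl
  | succ n ih => rw [show 2 * (n + 1) = 2 * n + 1 + 1 by ring, fl, fl, ih, fl, List.append_assoc]

lemma fl_rev (f : ℕ → List ℤ) (n : ℕ) :
    (fl f n).reverse = fl (fun i => (f (n - 1 - i)).reverse) n := by
  induction n with
  | zero => rfl
  | succ n ih =>
    rw [fl, List.reverse_append, ih, fl_succ']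
    congr 1
    exact fl_congr fun i _ => by rw [show n + 1 - 1 - (i + 1) = n - 1 - i by omega]

lemma fl_len {f : ℕ → List ℤ} {p : ℕ} (h : ∀ i, (f i).length = p) (n : ℕ) :
    (fl f n).length = p * n := by
  induction n with
  | zero => rfl
  | succ n ih => rw [fl, List.length_append, ih, h]; ring

lemma il_append {α : Type} (A : List α) : ∀ (B C D : List α), A.length = B.length →
    il (A ++ C) (B ++ D) = il A B ++ il C D := by
  induction A with
  | nil => intro B C D h; obtain rfl := List.length_eq_zero_iff.1 h.symm; simp [il]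
  | cons a A ih =>
    intro B C D h
    obtain _ | ⟨b, B⟩ := B
    · simp at h
    simp [il, ih B C D (by simpa using h)]

lemma il_map {α β : Type} (f : α → β) (A : List α) : ∀ B : List α,
    (il A B).map f = il (A.map f) (B.map f) := by
  induction A with
  | nil => intro B; simp [il]
  | cons a A ih => intro B; cases B <;> simp [il, ih]

lemma fl_il {f g : ℕ → List ℤ} {p : ℕ} (hf : ∀ i, (f i).length = p) (hg : ∀ i, (g i).length = p)
    (n : ℕ) : il (fl f n) (fl g n) = fl (fun i => il (f i) (g i)) n := by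
  induction n with
  | zero => simp [fl, il]
  | succ n ih => rw [fl, fl, fl, il_append _ _ _ _ (by rw [fl_len hf, fl_len hg]), ih]

lemma fl_single (g : ℕ → ℤ) (n : ℕ) : fl (fun i => [g i]) n = (List.range n).map g := by
  induction n with
  | zero => rfl
  | succ n ih => rw [fl, ih, List.range_succ, List.map_append]; rfl

/-! ### symbolic rows -/

/-- natural number affine in the parameter -/
abbrev Af : Type := ℕ × ℕ
/-- progression: constant, coefficient of the parameter, step -/
abbrev El : Type := ℤ × ℤ × ℤ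
/-- a number of periods of several interleaved progressions -/
abbrev Sg : Type := Af × List El

def av (r : ℕ) (a : Af) : ℕ := a.1 + a.2 * r
def ev (r i : ℕ) (e : El) : ℤ := e.1 + e.2.1 * r + i * e.2.2
def sbk (r : ℕ) (es : List El) (n : ℕ) : List ℤ := fl (fun i => es.map (ev r i)) n
def den (r : ℕ) : List Sg → List ℤ
  | [] => []
  | s :: l => sbk r s.2 (av r s.1) ++ den r l

theorem den_realize : True := by have := @den.eq_def; trivial

lemma den_append (r : ℕ) (A B : List Sg) : den r (A ++ B) = den r A ++ den r B := by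
  induction A with
  | nil => rfl
  | cons s A ih => simp [den, ih]

lemma sbk_len (r : ℕ) (es : List El) (n : ℕ) : (sbk r es n).length = es.length * n :=
  fl_len (fun _ => by simp) n

lemma sbk_one (r : ℕ) (es : List El) : sbk r es 1 = es.map (ev r 0) := by simp [sbk, fl]

def sh (q : Af) (es : List El) : List El :=
  es.map fun e => (e.1 + q.1 * e.2.2, e.2.1 + q.2 * e.2.2, e.2.2)

lemma sh_ev (r i : ℕ) (q : Af) (es : List El) :
    (sh q es).map (ev r i) = es.map (ev r (av r q + i)) := by
  rw [sh, List.map_map]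
  exact List.map_congr_left fun e _ => by simp only [Function.comp, ev, av]; push_cast; ring

lemma sbk_add (r : ℕ) (q : Af) (es : List El) (m : ℕ) :
    sbk r es (av r q + m) = sbk r es (av r q) ++ sbk r (sh q es) m := by
  simp only [sbk, fl_add, sh_ev]

lemma sbk_split (r : ℕ) {q n : Af} (es : List El) (h1 : q.1 ≤ n.1) (h2 : q.2 ≤ n.2) :
    sbk r es (av r n) = sbk r es (av r q) ++ sbk r (sh q es) (av r (n.1 - q.1, n.2 - q.2)) := by
  rw [← sbk_add]
  congr 1
  obtain ⟨a, ha⟩ := Nat.exists_eq_add_of_le h1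
  obtain ⟨b, hb⟩ := Nat.exists_eq_add_of_le h2
  simp only [av, ha, hb, Nat.add_sub_cancel_left]; ring

def lenL : List Sg → Af
  | [] => (0, 0)
  | s :: l => (s.2.length * s.1.1 + (lenL l).1, s.2.length * s.1.2 + (lenL l).2)

theorem lenL_realize : True := by have := @lenL.eq_def; trivial

lemma den_len (r : ℕ) (l : List Sg) : (den r l).length = av r (lenL l) := by
  induction l with
  | nil => simp [den, lenL, av]
  | cons s l ih => rw [den, List.length_append, sbk_len, ih]; simp only [lenL, av]; ring

def emp (s : Sg) : Bool := s.1 == (0, 0) || s.2.isEmpty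

lemma sbk_emp (r : ℕ) {s : Sg} (h : emp s = true) : sbk r s.2 (av r s.1) = [] := by
  rw [← List.length_eq_zero_iff, sbk_len]
  simp only [emp, Bool.or_eq_true, beq_iff_eq, List.isEmpty_iff] at h
  rcases h with h | h <;> simp [h, av]

def cl (l : List Sg) : List Sg := l.filter fun s => !emp s

lemma den_cl (r : ℕ) (l : List Sg) : den r (cl l) = den r l := by
  induction l with
  | nil => rfl
  | cons s l ih =>
    rw [cl, List.filter_cons]
    cases h : emp s
    · simp only [Bool.not_false, if_true, den]; exact congrArg _ ih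
    · simp only [Bool.not_true, Bool.false_eq_true, if_false, den, sbk_emp r h]; exact ih

def revL (l : List Sg) : List Sg :=
  (l.map fun s => (s.1, s.2.reverse.map fun e =>
    (e.1 + ((s.1.1 : ℤ) - 1) * e.2.2, e.2.1 + s.1.2 * e.2.2, -e.2.2))).reverse

lemma den_revL (r : ℕ) (l : List Sg) : den r (revL l) = (den r l).reverse := by
  induction l with
  | nil => rfl
  | cons s l ih =>
    rw [revL, List.map_cons, List.reverse_cons, den_append, den.eq_2 r s, List.reverse_append,
      ← ih]
    congr 1
    simp only [den, List.append_nil, sbk, fl_rev]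
    refine fl_congr fun i hi => ?_
    rw [List.map_map, ← List.map_reverse]
    refine List.map_congr_left fun e _ => ?_
    have : ((av r s.1 - 1 - i : ℕ) : ℤ) = s.1.1 + s.1.2 * r - 1 - i := by
      rw [av] at hi ⊢; push_cast [Nat.sub_sub, Nat.cast_sub (show 1 + i ≤ s.1.1 + s.1.2 * r by omega)]
      ring
    simp only [Function.comp, ev, this]; ring

/-- cut a symbolic row after `k` entries -/
def splitL : List Sg → Af → Option (List Sg × List Sg)
  | [], k => if k = (0, 0) then some ([], []) else none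
  | s :: A, k =>
    if s.2.length * s.1.1 ≤ k.1 ∧ s.2.length * s.1.2 ≤ k.2 then
      (splitL A (k.1 - s.2.length * s.1.1, k.2 - s.2.length * s.1.2)).map
        fun ab => (s :: ab.1, ab.2)
    else
      let q : Af := (k.1 / s.2.length, k.2 / s.2.length)
      if q.1 ≤ s.1.1 ∧ q.2 ≤ s.1.2 ∧ k.2 % s.2.length = 0 then
        if k.1 % s.2.length = 0 then some ([(q, s.2)], ((s.1.1 - q.1, s.1.2 - q.2), sh q s.2) :: A)
        else if q.1 < s.1.1 then
          some ([(q, s.2), ((1, 0), (sh q s.2).take (k.1 % s.2.length))],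
            ((1, 0), (sh q s.2).drop (k.1 % s.2.length)) ::
              ((s.1.1 - q.1 - 1, s.1.2 - q.2 - 0), sh (1, 0) (sh q s.2)) :: A)
        else none
      else none

theorem splitL_realize : True := by have := @splitL.eq_def; trivial

lemma splitL_den (r : ℕ) (l : List Sg) : ∀ (k : Af) (a b : List Sg), splitL l k = some (a, b) →
    den r l = den r a ++ den r b := by
  induction l with
  | nil =>
    intro k a b h
    simp only [splitL] at h
    split_ifs at h
    cases h; rfl
  | cons s A ih =>
    intro k a b h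
    simp only [splitL] at h
    split_ifs at h with h1 h2 h3 h4
    · obtain ⟨⟨a', b'⟩, e, h⟩ := Option.map_eq_some_iff.1 h
      cases h
      rw [den, den, ih _ _ _ e, List.append_assoc]
    · cases h
      simp only [den, List.append_nil]
      rw [sbk_split r s.2 (q := (k.1 / s.2.length, k.2 / s.2.length)) h2.1 h2.2.1,
        List.append_assoc]
    · cases h
      simp only [den, List.append_nil]
      rw [sbk_split r s.2 (q := (k.1 / s.2.length, k.2 / s.2.length)) h2.1 h2.2.1,
        sbk_split r (sh _ s.2) (q := (1, 0)) (by simp only; omega) (Nat.zero_le _)]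
      simp only [av, zero_mul, add_zero, sbk_one, List.append_assoc]
      rw [← List.append_assoc (List.map _ (List.take _ _)), ← List.map_append,
        List.take_append_drop]

/-- cut with the length of the first part checked -/
def cut (l : List Sg) (k : Af) : Option (List Sg × List Sg) :=
  (splitL l k).bind fun ab => if lenL ab.1 = k then some (cl ab.1, cl ab.2) else none

lemma cut_spec (r : ℕ) {l : List Sg} {k : Af} {x : List Sg × List Sg} (h : cut l k = some x) :
    den r l = den r x.1 ++ den r x.2 ∧ (den r x.1).length = av r k := by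
  obtain ⟨⟨a, b⟩, e, h⟩ := Option.bind_eq_some_iff.1 h
  split_ifs at h with h1
  cases h
  rw [den_cl, den_cl, den_len, h1]
  exact ⟨splitL_den r _ _ _ _ e, rfl⟩

def dblS (m : Af) (s : Sg) : List Sg :=
  let h : Af := if 2 * m.1 ≤ s.1.1 ∧ 2 * m.2 ≤ s.1.2 then m else (s.1.1 / 2, s.1.2 / 2)
  [(h, (s.2 ++ sh (1, 0) s.2).map fun e => (e.1, e.2.1, 2 * e.2.2)),
    ((s.1.1 - 2 * h.1, s.1.2 - 2 * h.2), sh (2 * h.1, 2 * h.2) s.2)]

lemma den_dblS (r : ℕ) (m : Af) (s : Sg) (A : List Sg) :
    den r (dblS m s ++ A) = den r (s :: A) := by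
  unfold dblS
  generalize hh : (if 2 * m.1 ≤ s.1.1 ∧ 2 * m.2 ≤ s.1.2 then m else (s.1.1 / 2, s.1.2 / 2)) = h
  have h1 : 2 * h.1 ≤ s.1.1 ∧ 2 * h.2 ≤ s.1.2 := by
    rw [← hh]; split_ifs with c
    · exact c
    · simp only; omega
  simp only [List.cons_append, List.nil_append, den]
  rw [sbk_split r s.2 (n := s.1) (q := (2 * h.1, 2 * h.2)) h1.1 h1.2, List.append_assoc]
  congr 1
  rw [show av r (2 * h.1, 2 * h.2) = 2 * av r h by simp only [av]; ring, sbk, sbk, fl_dbl]
  refine fl_congr fun i _ => ?_
  have e : ∀ l : List El, (l.map fun e => (e.1, e.2.1, 2 * e.2.2)).map (ev r i) =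
      l.map (ev r (2 * i)) := fun l => by
    rw [List.map_map]
    exact List.map_congr_left fun e _ => by simp only [Function.comp, ev]; push_cast; ring
  rw [e, List.map_append, sh_ev, show av r (1, 0) + 2 * i = 2 * i + 1 by simp [av, add_comm]]

def peel : Sg → List Sg
  | (n, e :: es) =>
    if 1 ≤ n.1 then [((1, 0), [e]), ((n.1 - 1, n.2), es ++ sh (1, 0) [e]),
      ((1, 0), sh (n.1 - 1, n.2) es)] else [(n, e :: es)]
  | s => [s]

lemma den_peel (r : ℕ) (s : Sg) (A : List Sg) : den r (peel s ++ A) = den r (s :: A) := by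
  obtain ⟨n, _ | ⟨e, es⟩⟩ := s
  · rfl
  simp only [peel]
  split_ifs with h
  · have e1 : av r n = av r (n.1 - 1, n.2) + 1 := by simp only [av]; omega
    have e2 : av r (1, 0) = 1 := by simp [av]
    simp only [List.cons_append, List.nil_append, den, e2, sbk_one]
    rw [e1]
    simp only [sbk, List.map_cons, fl_rot, List.map_append, sh_ev, e2, add_comm 1, List.map_nil,
      add_zero, List.cons_append, List.nil_append, List.append_assoc]
  · rfl

/-- bring two symbolic rows to a common shape -/
def align : ℕ → List Sg → List Sg → Option (List (Af × List El × List El))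
  | 0, _, _ => none
  | _ + 1, [], [] => some []
  | f + 1, s :: A, [] => if emp s then align f A [] else none
  | f + 1, [], t :: B => if emp t then align f [] B else none
  | f + 1, s :: A, t :: B =>
    if emp s then align f A (t :: B) else if emp t then align f (s :: A) B
    else if s.2.length = t.2.length then
      if s.1.1 ≤ t.1.1 ∧ s.1.2 ≤ t.1.2 then
        (align f A (((t.1.1 - s.1.1, t.1.2 - s.1.2), sh s.1 t.2) :: B)).map ((s.1, s.2, t.2) :: ·)
      else if t.1.1 ≤ s.1.1 ∧ t.1.2 ≤ s.1.2 then
        (align f (((s.1.1 - t.1.1, s.1.2 - t.1.2), sh t.1 s.2) :: A) B).map ((t.1, s.2, t.2) :: ·)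
      else none
    else if s.1.2 ≠ 0 ∧ t.1.2 ≠ 0 then
      if s.2.length < t.2.length then align f (dblS t.1 s ++ A) (t :: B)
      else align f (s :: A) (dblS s.1 t ++ B)
    else if 1 < s.2.length then align f (peel s ++ A) (t :: B) else align f (s :: A) (peel t ++ B)

theorem align_realize : True := by have := @align.eq_def; trivial

lemma align_spec (r f : ℕ) : ∀ (A B : List Sg) (L : List (Af × List El × List El)),
    align f A B = some L → den r A = den r (L.map fun x => (x.1, x.2.1)) ∧
      den r B = den r (L.map fun x => (x.1, x.2.2)) ∧ ∀ x ∈ L, x.2.1.length = x.2.2.length := by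
  induction f with
  | zero => intro A B L h; simp [align] at h
  | succ f ih =>
    intro A B L h
    obtain _ | ⟨s, A⟩ := A <;> obtain _ | ⟨t, B⟩ := B <;> simp only [align] at h
    · cases h; simp [den]
    · split_ifs at h with h1
      rw [den, den, sbk_emp r h1]; exact ih _ _ _ h
    · split_ifs at h with h1
      rw [den, den, sbk_emp r h1]; exact ih _ _ _ h
    split_ifs at h with h1 h2 h3 h4 h5 h6 h7 h8
    · rw [den, sbk_emp r h1]; exact ih _ _ _ h
    · rw [den.eq_2 r t, sbk_emp r h2]; exact ih _ _ _ h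
    · obtain ⟨L', e, rfl⟩ := Option.map_eq_some_iff.1 h
      obtain ⟨i1, i2, i3⟩ := ih _ _ _ e
      refine ⟨by simp only [List.map_cons, den, i1], ?_, by simpa [h3] using i3⟩
      simp only [List.map_cons, den, ← i2]
      rw [sbk_split r t.2 h4.1 h4.2, List.append_assoc]
    · obtain ⟨L', e, rfl⟩ := Option.map_eq_some_iff.1 h
      obtain ⟨i1, i2, i3⟩ := ih _ _ _ e
      refine ⟨?_, by simp only [List.map_cons, den, i2], by simpa [h3] using i3⟩
      simp only [List.map_cons, den, ← i1]
      rw [sbk_split r s.2 h5.1 h5.2, List.append_assoc]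
    · rw [← den_dblS r t.1]; exact ih _ _ _ h
    · rw [← den_dblS r s.1 t]; exact ih _ _ _ h
    · rw [← den_peel]; exact ih _ _ _ h
    · rw [← den_peel r t]; exact ih _ _ _ h

def ilL (A B : List Sg) : Option (List Sg) :=
  (align 2000 A B).map fun L => L.map fun x => (x.1, il x.2.1 x.2.2)

lemma ilL_spec (r : ℕ) {A B C : List Sg} (h : ilL A B = some C) :
    den r C = il (den r A) (den r B) := by
  obtain ⟨L, e, rfl⟩ := Option.map_eq_some_iff.1 h
  obtain ⟨i1, i2, i3⟩ := align_spec r _ _ _ _ e
  rw [i1, i2]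
  clear i1 i2 e h
  induction L with
  | nil => simp [den, il]
  | cons x L ih =>
    have := i3 x List.mem_cons_self
    simp only [List.map_cons, den]
    rw [il_append _ _ _ _ (by rw [sbk_len, sbk_len, this]),
      ih fun y hy => i3 y (List.mem_cons_of_mem _ hy), sbk, sbk, sbk,
      fl_il (p := x.2.2.length) (by simp [this]) (by simp)]
    simp only [il_map]

def eqv (A B : List Sg) : Bool :=
  match align 2000 A B with
  | some L => L.all fun x => x.2.1 == x.2.2 ||
      (x.1 == (1, 0) && (x.2.1.map fun e => (e.1, e.2.1)) == x.2.2.map fun e => (e.1, e.2.1))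
  | none => false

lemma eqv_spec (r : ℕ) {A B : List Sg} (h : eqv A B = true) : den r A = den r B := by
  unfold eqv at h
  split at h
  · rename_i L e
    obtain ⟨i1, i2, -⟩ := align_spec r _ _ _ _ e
    rw [i1, i2]
    clear i1 i2 e
    induction L with
    | nil => rfl
    | cons x L ih =>
      simp only [List.all_cons, Bool.and_eq_true, Bool.or_eq_true, beq_iff_eq] at h
      simp only [List.map_cons, den]
      rw [ih (by simpa using h.2)]
      congr 1
      rcases h.1 with h1 | ⟨h1, h2⟩
      · rw [h1]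
      · have e : ∀ l : List El, l.map (ev r 0) =
            (l.map fun e => (e.1, e.2.1)).map fun p : ℤ × ℤ => p.1 + p.2 * (r : ℤ) := fun l => by
          rw [List.map_map]; exact List.map_congr_left fun e _ => by simp [ev]
        rw [h1, show av r (1, 0) = 1 by simp [av], sbk_one, sbk_one, e, e, h2]
  · cases h

end Pool.Agent.P.MP_894816_co
end

-- part Pool.Agent.P.MP_894816_co.Run
section

namespace Pool.Agent.P.MP_894816_co

/-- width of the window of a move -/
def wid (k : ℕ) (a b : Af) : Af :=
  if k = 1 then (a.1 + b.1, a.2 + b.2) else if k = 2 then (2 * a.1, 2 * a.2)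
  else if k = 3 then (2 * a.1 + b.1, 2 * a.2 + b.2) else a

/-- second factor of the cost of a move -/
def cof (k : ℕ) (a b : Af) : Af :=
  if k = 1 then b else if k = 2 then a
  else if k = 3 then (a.1 + 2 * b.1, a.2 + 2 * b.2) else (0, 0)

/-- a move on a window: exchange the rows, pass, unzip, belt, or nothing -/
def wop (k : ℕ) (a b : Af) (x y : List Sg) : Option (List Sg × List Sg) :=
  if lenL x = wid k a b ∧ lenL y = wid k a b then
    if k = 0 then some (y, x)
    else if k = 1 then (cut x a).map fun u => (u.2 ++ u.1, y)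
    else if k = 2 then
      (cut x a).bind fun u => (cut y a).bind fun z => (ilL u.2 z.2).map fun w =>
        (w, z.1 ++ revL u.1)
    else if k = 3 then
      (cut x a).bind fun u => (cut u.2 b).bind fun v => (cut y a).bind fun z =>
        (cut z.2 (b.1 + 1, b.2)).bind fun t => (cut (revL v.1 ++ t.1) a).bind fun c =>
          (cut (c.2 ++ c.1) b).map fun h => (v.2 ++ (revL h.1 ++ u.1), z.1 ++ (h.2 ++ t.2))
    else some (x, y)
  else none

lemma wop_spec (r : ℕ) {k : ℕ} {a b : Af} {x y : List Sg} {o : List Sg × List Sg}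
    (h : wop k a b x y = some o) :
    Rch (av r a * av r (cof k a b)) (den r x) (den r y) (den r o.1) (den r o.2) := by
  unfold wop at h
  split_ifs at h with h0 h1 h2 h3 h4
  all_goals
    have lx := den_len r x
    have ly := den_len r y
    rw [h0.1] at lx
    rw [h0.2] at ly
  · cases h
    exact (rch_flips (den r x) (den r y) [] [] [] [] (lx.trans ly.symm) rfl).cast
      (by simp [h1, cof, av]) (by simp) (by simp) (by simp) (by simp)
  · obtain ⟨u, e, rfl⟩ := Option.map_eq_some_iff.1 h
    obtain ⟨e1, e2⟩ := cut_spec r e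
    have l2 : (den r u.2).length = av r b := by
      rw [e1, List.length_append, e2] at lx
      simp only [h2, wid, if_true, av, add_mul] at lx ⊢; omega
    exact (rch_pass (den r u.1) (den r u.2) [] [] (den r y)).cast (by simp [e2, l2, h2, cof])
      (by simp [e1]) rfl (by simp [den_append]) rfl
  · obtain ⟨u, e, h⟩ := Option.bind_eq_some_iff.1 h
    obtain ⟨z, e', h⟩ := Option.bind_eq_some_iff.1 h
    obtain ⟨w, e'', rfl⟩ := Option.map_eq_some_iff.1 h
    obtain ⟨e1, e2⟩ := cut_spec r e
    obtain ⟨e3, e4⟩ := cut_spec r e'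
    have hw : av r (wid k a b) = 2 * av r a := by simp [h3, wid, av]; ring
    rw [e1, List.length_append, e2, hw] at lx
    rw [e3, List.length_append, e4, hw] at ly
    exact (rch_unzip (den r u.1).reverse (den r u.2) (den r z.2) [] [] (den r z.1) [] []
      (by simp; omega) (by simp; omega) (by simp; omega)).cast (by simp [e2, h3, cof])
      (by simp [e1]) (by simp [e3]) (by simp [ilL_spec r e''])
      (by simp [den_append, den_revL])
  · obtain ⟨u, e1, h⟩ := Option.bind_eq_some_iff.1 h
    obtain ⟨v, e2, h⟩ := Option.bind_eq_some_iff.1 h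
    obtain ⟨z, e3, h⟩ := Option.bind_eq_some_iff.1 h
    obtain ⟨t, e4, h⟩ := Option.bind_eq_some_iff.1 h
    obtain ⟨c, e5, h⟩ := Option.bind_eq_some_iff.1 h
    obtain ⟨g, e6, rfl⟩ := Option.map_eq_some_iff.1 h
    obtain ⟨a1, b1⟩ := cut_spec r e1
    obtain ⟨a2, b2⟩ := cut_spec r e2
    obtain ⟨a3, b3⟩ := cut_spec r e3
    obtain ⟨a4, b4⟩ := cut_spec r e4
    obtain ⟨a5, b5⟩ := cut_spec r e5
    obtain ⟨a6, b6⟩ := cut_spec r e6
    have hw : av r (wid k a b) = 2 * av r a + av r b := by simp [h4, wid, av]; ring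
    have hc : av r (cof k a b) = av r a + 2 * av r b := by simp [h4, cof, av]; ring
    have hb : av r (b.1 + 1, b.2) = av r b + 1 := by simp only [av]; ring
    rw [a1, a2, List.length_append, List.length_append, b1, b2, hw] at lx
    rw [den_append, den_revL] at a5
    rw [den_append] at a6
    exact (rch_belt (den r u.1).reverse (den r v.2) [] [] (den r v.1) (den r t.1)
      (den r g.1).reverse (den r g.2) (den r z.1) (den r t.2) [] (by simp; omega) (by omega)
      (by simp; omega) (by simp; omega) (by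
        rw [a5, List.length_reverse, b1, ← b5, List.rotate_append_length_eq, a6,
          List.reverse_reverse])).cast (by simp [b1, b2, hc])
      (by simp [a1, a2]) (by simp [a3, a4]) (by simp [den_append, den_revL])
      (by simp [den_append])
  · cases h
    exact (Rch.refl _ _).cast (by simp [h2, h3, h4, cof, av]) rfl rfl rfl rfl

/-- kind, start of the window, two sizes, mirror flag, and the result if the move is run
backwards -/
structure Op where
  k : ℕ
  lo : Af
  a : Af
  b : Af
  mir : Bool
  inv : Option (List Sg × List Sg)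

def core (p : Op) (x y : List Sg) : Option (List Sg × List Sg) :=
  match p.inv with
  | none => wop p.k p.a p.b x y
  | some o => (wop p.k p.a p.b o.1 o.2).bind fun z =>
      if eqv z.1 x && eqv z.2 y then some o else none

lemma core_spec (r : ℕ) {p : Op} {x y : List Sg} {o : List Sg × List Sg}
    (h : core p x y = some o) :
    Rch (av r p.a * av r (cof p.k p.a p.b)) (den r x) (den r y) (den r o.1) (den r o.2) := by
  unfold core at h
  split at h
  · exact wop_spec r h
  · obtain ⟨z, e, h⟩ := Option.bind_eq_some_iff.1 h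
    split_ifs at h with h1
    cases h
    rw [Bool.and_eq_true] at h1
    exact (wop_spec r e).symm.cast rfl (eqv_spec r h1.1) (eqv_spec r h1.2) rfl rfl

def step (p : Op) (X Y : List Sg) : Option (List Sg × List Sg) :=
  (cut X p.lo).bind fun x => (cut x.2 (wid p.k p.a p.b)).bind fun x' =>
    (cut Y p.lo).bind fun y => (cut y.2 (wid p.k p.a p.b)).bind fun y' =>
      (if p.mir then (core p (revL x'.1) (revL y'.1)).map fun o => (revL o.1, revL o.2)
        else core p x'.1 y'.1).map fun o => (x.1 ++ (o.1 ++ x'.2), y.1 ++ (o.2 ++ y'.2))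

lemma step_spec (r : ℕ) {p : Op} {X Y : List Sg} {o : List Sg × List Sg}
    (h : step p X Y = some o) :
    Rch (av r p.a * av r (cof p.k p.a p.b)) (den r X) (den r Y) (den r o.1) (den r o.2) := by
  obtain ⟨x, e1, h⟩ := Option.bind_eq_some_iff.1 h
  obtain ⟨x', e2, h⟩ := Option.bind_eq_some_iff.1 h
  obtain ⟨y, e3, h⟩ := Option.bind_eq_some_iff.1 h
  obtain ⟨y', e4, h⟩ := Option.bind_eq_some_iff.1 h
  obtain ⟨z, e5, rfl⟩ := Option.map_eq_some_iff.1 h
  obtain ⟨a1, b1⟩ := cut_spec r e1
  obtain ⟨a2, b2⟩ := cut_spec r e2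
  obtain ⟨a3, b3⟩ := cut_spec r e3
  obtain ⟨a4, b4⟩ := cut_spec r e4
  have key : Rch (av r p.a * av r (cof p.k p.a p.b)) (den r x'.1) (den r y'.1) (den r z.1)
      (den r z.2) := by
    split_ifs at e5
    · obtain ⟨w, e6, rfl⟩ := Option.map_eq_some_iff.1 e5
      exact ((core_spec r e6).rev (by simp [den_revL, b2, b4])).cast rfl (by simp [den_revL])
        (by simp [den_revL]) (den_revL r _).symm (den_revL r _).symm
    · exact core_spec r e5
  exact (key.ctx _ _ _ _ (b1.trans b3.symm)).cast rfl (by rw [a1, a2]) (by rw [a3, a4])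
    (by simp only [den_append]) (by simp only [den_append])

def exe : List Op → List Sg → List Sg → Option (List Sg × List Sg)
  | [], X, Y => some (X, Y)
  | p :: l, X, Y => (step p X Y).bind fun o => exe l o.1 o.2

theorem exe_realize : True := by have := @exe.eq_def; trivial

/-- coefficients of the total cost, a quadratic polynomial in the parameter -/
def tot : List Op → ℕ × ℕ × ℕ
  | [] => (0, 0, 0)
  | p :: l => (p.a.1 * (cof p.k p.a p.b).1 + (tot l).1,
      p.a.1 * (cof p.k p.a p.b).2 + p.a.2 * (cof p.k p.a p.b).1 + (tot l).2.1,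
      p.a.2 * (cof p.k p.a p.b).2 + (tot l).2.2)

theorem tot_realize : True := by have := @tot.eq_def; trivial

lemma exe_spec (r : ℕ) (l : List Op) : ∀ (X Y : List Sg) (o : List Sg × List Sg),
    exe l X Y = some o → Rch ((tot l).1 + (tot l).2.1 * r + (tot l).2.2 * (r * r))
      (den r X) (den r Y) (den r o.1) (den r o.2) := by
  induction l with
  | nil => intro X Y o h; cases h; exact (Rch.refl _ _).cast (by simp [tot]) rfl rfl rfl rfl
  | cons p l ih =>
    intro X Y o h
    obtain ⟨z, e, h⟩ := Option.bind_eq_some_iff.1 h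
    exact ((step_spec r e).trans (ih _ _ _ h)).cast (by simp only [tot, av]; ring) rfl rfl rfl rfl

def chk (n : Af) (c : ℕ × ℕ × ℕ) (l : List Op) : Bool :=
  match exe l [(n, [(1, 0, 2)])] [(n, [(2, 0, 2)])] with
  | some o => eqv o.1 [(n, [(2 * n.1, 2 * n.2, -2)])] &&
      eqv o.2 [(n, [(2 * n.1 - 1, 2 * n.2, -2)])] && tot l == c
  | none => false

theorem good_of_chk {n : Af} {c : ℕ × ℕ × ℕ} {l : List Op} (h : chk n c l = true) (r : ℕ) :
    Good (2 * (n.1 + n.2 * r)) (c.1 + c.2.1 * r + c.2.2 * (r * r)) := by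
  unfold chk at h
  split at h
  · rename_i o e
    simp only [Bool.and_eq_true, beq_iff_eq] at h
    have h1 := exe_spec r l _ _ _ e
    rw [eqv_spec r h.1.1, eqv_spec r h.1.2, h.2] at h1
    simp only [den, sbk, List.map_cons, List.map_nil, fl_single, List.append_nil] at h1
    refine good_of_rch (h1.cast rfl ?_ ?_ ?_ ?_) <;>
      exact List.map_congr_left fun i _ => by simp only [ev]; push_cast; ring
  · cases h

end Pool.Agent.P.MP_894816_co
end
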