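import Pool.Agent.K.MP_894816_co.C0
import Pool.Agent.K.MP_894816_co.C1

-- part Pool.Agent.P.MP_894816_co.Hecke
section

namespace Pool.Agent.P.MP_894816_co

open Equiv

/-- keep only the letters that exchange an ascending pair -/
def hk : Perm ℕ → List ℕ → List ℕ
  | _, [] => []
  | g, k :: w => if g k < g (k + 1) then k :: hk (g * s k) w else hk g w

def Asc : Perm ℕ → List ℕ → Prop
  | _, [] => True
  | g, k :: w => g k < g (k + 1) ∧ Asc (g * s k) w

lemma asc_hk (w : List ℕ) : ∀ g, Asc g (hk g w) := by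
  induction w with
  | nil => intro g; trivial
  | cons k w ih =>
    intro g; unfold hk; split_ifs with h
    · exact ⟨h, ih _⟩
    · exact ih _

lemma hk_sublist (w : List ℕ) : ∀ g, (hk g w).Sublist w := by
  induction w with
  | nil => intro g; exact List.Sublist.refl _
  | cons k w ih =>
    intro g; unfold hk; split_ifs with h
    · exact (ih _).cons_cons k
    · exact (ih _).cons k

def cnt (g : Perm ℕ) (m : ℕ) : ℕ → ℕ
  | 0 => 0
  | j + 1 => cnt g m j + if m < g (j + 1) then 1 else 0

lemma cnt_s_lt (g : Perm ℕ) (m k j : ℕ) (h : j < k) : cnt (g * s k) m j = cnt g m j := by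
  induction j with
  | zero => rfl
  | succ j ih =>
    have : s k (j + 1) = j + 1 := by rw [s_apply]; split_ifs <;> omega
    rw [cnt, cnt, ih (by omega), Perm.mul_apply, this]

lemma cnt_s_eq (g : Perm ℕ) (m k : ℕ) :
    cnt (g * s (k + 1)) m (k + 1) = cnt g m k + if m < g (k + 2) then 1 else 0 := by
  have : s (k + 1) (k + 1) = k + 2 := by rw [s_apply]; simp
  rw [cnt, cnt_s_lt g m (k + 1) k (by omega), Perm.mul_apply, this]

lemma cnt_s_gt (g : Perm ℕ) (m k j : ℕ) :
    cnt (g * s (k + 1)) m (k + 2 + j) = cnt g m (k + 2 + j) := by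
  induction j with
  | zero =>
    have : s (k + 1) (k + 1 + 1) = k + 1 := by rw [s_apply]; simp
    show cnt _ m (k + 1 + 1) = cnt g m (k + 1 + 1)
    rw [cnt, cnt_s_eq, Perm.mul_apply, this, cnt, cnt, show k + 2 = k + 1 + 1 from rfl]; omega
  | succ j ih =>
    have : s (k + 1) (k + 2 + j + 1) = k + 2 + j + 1 := by rw [s_apply]; split_ifs <;> omega
    show cnt _ m (k + 2 + j + 1) = cnt g m (k + 2 + j + 1)
    rw [cnt, cnt, ih, Perm.mul_apply, this]

def Dom (g g' : Perm ℕ) : Prop := ∀ m j, cnt g m j ≤ cnt g' m j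

lemma dom_step {g g' : Perm ℕ} (h : Dom g g') (k : ℕ) :
    Dom (g * s (k + 1)) (if g' (k + 1) < g' (k + 1 + 1) then g' * s (k + 1) else g') := by
  intro m j
  have h0 := h m k
  have h2 := h m (k + 1 + 1)
  rcases lt_trichotomy j (k + 1) with hj | rfl | hj
  · rw [cnt_s_lt _ _ _ _ hj]; split_ifs
    · rw [cnt_s_lt _ _ _ _ hj]; exact h m j
    · exact h m j
  · rw [cnt_s_eq]
    simp only [cnt] at h2
    by_cases hc : g' (k + 1) < g' (k + 1 + 1)
    · rw [if_pos hc, cnt_s_eq]
      simp only [show k + 2 = k + 1 + 1 from rfl]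
      split_ifs at h2 ⊢ <;> omega
    · rw [if_neg hc, cnt]
      simp only [show k + 2 = k + 1 + 1 from rfl]
      split_ifs at h2 ⊢ <;> omega
  · obtain ⟨i, rfl⟩ : ∃ i, j = k + 2 + i := ⟨j - (k + 2), by omega⟩
    rw [cnt_s_gt]; split_ifs
    · rw [cnt_s_gt]; exact h m _
    · exact h m _

lemma dom_hk (w : List ℕ) (hw : ∀ k ∈ w, 1 ≤ k) :
    ∀ g g', Dom g g' → Dom (g * pr w) (g' * pr (hk g' w)) := by
  induction w with
  | nil => intro g g' h; simpa [hk] using h
  | cons k w ih =>
    intro g g' h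
    obtain ⟨k, rfl⟩ : ∃ j, k = j + 1 := ⟨k - 1, by have := hw k List.mem_cons_self; omega⟩
    have h1 := ih (fun i hi => hw i (List.mem_cons_of_mem _ hi)) _ _ (dom_step h k)
    unfold hk
    split_ifs at h1 ⊢
    · simpa [mul_assoc] using h1
    · simpa [mul_assoc] using h1

lemma cnt_le (g : Perm ℕ) (m j : ℕ) : cnt g m j ≤ j := by
  induction j with
  | zero => exact le_rfl
  | succ j ih => rw [cnt]; split_ifs <;> omega

lemma cnt_rv (N m j : ℕ) (h : j + m ≤ N) : cnt (rv N) m j = j := by
  induction j with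
  | zero => rfl
  | succ j ih => rw [cnt, ih (by omega), rv_apply]; split_ifs <;> omega

lemma eq_rv_of_dom {N : ℕ} {g : Perm ℕ} (h : Dom (rv N) g)
    (hf : ∀ p, p < 1 ∨ N < p → g p = p) : g = rv N := by
  have h1 : ∀ j, 1 ≤ j → j ≤ N → N - j < g j := by
    intro j hj hN
    obtain ⟨j, rfl⟩ : ∃ i, j = i + 1 := ⟨j - 1, by omega⟩
    have h2 := h (N - (j + 1)) (j + 1)
    rw [cnt_rv _ _ _ (by omega), cnt] at h2
    have := cnt_le g (N - (j + 1)) j
    split_ifs at h2 <;> omega
  have h2 : ∀ j, 1 ≤ j → j ≤ N → g j = N + 1 - j := by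
    intro j
    induction j using Nat.strong_induction_on with
    | _ j ih =>
      intro hj hN
      have h3 := h1 j hj hN
      by_contra hne
      by_cases hb : N < g j
      · have := g.injective (hf (g j) (Or.inr hb)); omega
      · have h4 := ih (N + 1 - g j) (by omega) (by omega) (by omega)
        have : g (N + 1 - g j) = g j := by omega
        have := g.injective this; omega
  ext p
  rw [rv_apply]; split_ifs with hp
  · exact h2 p hp.1 hp.2
  · exact hf p (by omega)

lemma exists_asc {N : ℕ} {w : List ℕ} (h : Inb N w) (hw : pr w = rv N) :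
    ∃ v, Inb N v ∧ pr v = rv N ∧ cost v ≤ cost w ∧ Asc 1 v := by
  have hi : Inb N (hk 1 w) := fun k hk' => h k ((hk_sublist w 1).subset hk')
  refine ⟨hk 1 w, hi, ?_, (hk_sublist w 1).countP_le, asc_hk w 1⟩
  have := dom_hk w (fun k hk => (h k hk).1) 1 1 (fun _ _ => le_rfl)
  rw [one_mul, one_mul, hw] at this
  refine eq_rv_of_dom this fun p hp => pr_fix fun k hk' => ?_
  have := hi k hk'; omega

/-! ### removing the top wire -/

lemma cost_dn (m : ℕ) : cost (dn 1 m) = m / 2 := by
  induction m with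
  | zero => rfl
  | succ m ih => rw [dn, cost_cons, ih]; split_ifs <;> omega

lemma split_top (N : ℕ) (w : List ℕ) : ∀ (g : Perm ℕ) (p : ℕ), Inb N w → Asc g w → g (p + 1) = N →
    (∀ i, i ≤ N → g i ≤ N) → (g * pr w) 1 = N →
    ∃ B A, pr w = pr B * pr (dn 1 p) * pr A ∧ Inb p B ∧ (∀ k ∈ A, 2 ≤ k ∧ k + 1 ≤ N) ∧
      cost w = cost B + p / 2 + cost A := by
  induction w with
  | nil =>
    intro g p _ _ h1 _ h3
    have : p + 1 = 1 := g.injective (by rw [h1]; simpa using h3.symm)
    obtain rfl : p = 0 := by omega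
    exact ⟨[], [], by simp [dn], inb_nil _, by simp, by simp⟩
  | cons k w ih =>
    intro g p hi ha h1 h2 h3
    obtain ⟨hk, hi'⟩ := inb_cons.1 hi
    have h2' : ∀ i, i ≤ N → (g * s k) i ≤ N := fun i hi => by
      rw [Perm.mul_apply]; apply h2; rw [s_apply]; split_ifs <;> omega
    have h3' : (g * s k * pr w) 1 = N := by simpa [mul_assoc] using h3
    have hne : k ≠ p + 1 := by
      rintro rfl
      have := ha.1; have := h2 (p + 1 + 1) hk.2; omega
    by_cases hkp : k = p
    · subst hkp
      obtain ⟨k, rfl⟩ : ∃ j, k = j + 1 := ⟨k - 1, by omega⟩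
      obtain ⟨B, A, e, hB, hA, hc⟩ := ih (g * s (k + 1)) k hi' ha.2
        (by rw [Perm.mul_apply, s_apply]; simpa using h1) h2' h3'
      refine ⟨B, A, ?_, hB.mono (by omega), hA, ?_⟩
      · rw [pr_cons, e, dn, pr_cons, ← mul_assoc, ← mul_assoc,
          s_comm_pr (fun j hj => by have := hB j hj; omega), add_comm 1 k]
        simp only [mul_assoc]
      · rw [cost_cons, hc]; split_ifs <;> omega
    · obtain ⟨B, A, e, hB, hA, hc⟩ := ih (g * s k) p hi' ha.2
        (by rw [Perm.mul_apply, s_apply]; split_ifs <;> omega) h2' h3'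
      by_cases hlt : k < p
      · refine ⟨k :: B, A, by rw [pr_cons, e, pr_cons]; simp only [mul_assoc],
          inb_cons.2 ⟨by omega, hB⟩, hA, by rw [cost_cons, cost_cons, hc]; omega⟩
      · refine ⟨B, k :: A, ?_, hB, ?_, by rw [cost_cons, cost_cons, hc]; omega⟩
        · rw [pr_cons, e, pr_cons, ← mul_assoc, ← mul_assoc,
            s_comm_pr (fun j hj => by have := hB j hj; omega), mul_assoc (pr B),
            s_comm_pr (fun j hj => by have := dn_mem hj; omega)]
          simp only [mul_assoc]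
        · intro j hj
          rcases List.mem_cons.1 hj with rfl | hj
          · omega
          · exact hA j hj

/-- from `q+1` wires (`q` odd) to `q` wires, saving the even letters of one wire -/
lemma good_remove {q c : ℕ} (hq : q % 2 = 1) (h : Good (q + 1) c) :
    ∃ w, Inb q w ∧ pr w = rv q ∧ cost w + q / 2 ≤ c := by
  obtain ⟨w0, h1, h2, h3⟩ := h
  obtain ⟨w, hi, hw, hc, ha⟩ := exists_asc h1 h2
  obtain ⟨B, A, e, hB, hA, hc'⟩ := split_top (q + 1) w 1 q hi ha rfl (fun i hi => hi)
    (by rw [one_mul, hw, rv_apply]; simp)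
  have e1 : rv (q + 1) = rv q * pr (dn 1 q) := by
    ext p; rw [Perm.mul_apply, pr_dn, rv_apply, rv_apply]; split_ifs <;> omega
  have e2 : pr (dn 1 q) * pr A = pr (A.map (· - 1)) * pr (dn 1 q) := by
    refine pr_map_conj _ _ _ fun k hk => ?_
    have := hA k hk
    ext p; simp only [Perm.mul_apply, s_apply, pr_dn]; split_ifs <;> omega
  have hA' : Inb q (A.map (· - 1)) := by
    intro k hk
    obtain ⟨j, hj, rfl⟩ := List.mem_map.1 hk
    have := hA j hj; omega
  have e3 : pr B * pr (A.map (· - 1)) = rv q := by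
    apply mul_right_cancel (b := pr (dn 1 q))
    rw [← e1, ← hw, e, mul_assoc, ← e2, mul_assoc]
  refine ⟨(A.map (· - 1)).map (q - ·) ++ B, inb_append.2 ⟨inb_flip hA', hB⟩, ?_, ?_⟩
  · rw [pr_append, pr_flip hA', mul_assoc, mul_assoc]
    have : pr (A.map (· - 1)) = (pr B)⁻¹ * rv q := by rw [← e3]; simp
    rw [this, ← e3]
    have h4 := rv_mul_self q
    rw [← e3] at h4
    calc _ = pr B * pr (A.map (· - 1)) * (pr B)⁻¹ *
          (pr B * pr (A.map (· - 1)) * (pr B * pr (A.map (· - 1)))) * pr B := by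
            simp only [mul_assoc]
      _ = _ := by rw [h4]; simp
  · rw [cost_append, List.map_map, cost_map _ _ (fun k hk => by
      have := hA k hk; simp only [Function.comp]; omega)]
    omega

end Pool.Agent.P.MP_894816_co
end

-- part Pool.Agent.P.MP_894816_co.Lens
section

namespace Pool.Agent.P.MP_894816_co

open Equiv

lemma Rch.map (f : ℤ → ℤ) {c : ℕ} {X Y Z W : List ℤ} (h : Rch c X Y Z W) :
    Rch c (X.map f) (Y.map f) (Z.map f) (W.map f) := by
  induction h with
  | refl => exact .refl _ _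
  | flip P Q X Y a b h =>
    exact (Rch.flip (P.map f) (Q.map f) (X.map f) (Y.map f) (f a) (f b) (by simp [h])).cast rfl
      (by simp) (by simp) (by simp) (by simp)
  | swap P X Y a b =>
    exact (Rch.swap (P.map f) (X.map f) (Y.map f) (f a) (f b)).cast rfl (by simp) rfl (by simp) rfl
  | trans _ _ i1 i2 => exact i1.trans i2

/-! ### local programs -/

def flp (i b : ℕ) (s : List El × List El) : List El × List El :=
  match b, s.1.drop i, s.2.drop i with
  | 1, x :: X, y :: Y => (s.1.take i ++ y :: X, s.2.take i ++ x :: Y)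
  | _, _, _ => s

lemma flp_spec (f : El → ℤ) (i b : ℕ) (s : List El × List El) :
    Rch 0 (s.1.map f) (s.2.map f) ((flp i b s).1.map f) ((flp i b s).2.map f) := by
  unfold flp
  split
  · rename_i x X y Y h1 h2
    have l1 := congrArg List.length h1
    have l2 := congrArg List.length h2
    simp only [List.length_drop, List.length_cons] at l1 l2
    refine (Rch.flip ((s.1.take i).map f) ((s.2.take i).map f) (X.map f) (Y.map f) (f x) (f y)
      (by simp; omega)).cast rfl ?_ ?_ (by simp) (by simp)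
    · rw [← List.map_cons, ← List.map_append, ← h1, List.take_append_drop]
    · rw [← List.map_cons, ← List.map_append, ← h2, List.take_append_drop]
  · exact .refl _ _

def mov (i d : ℕ) (X : List El) : Option (List El) :=
  match (X.drop i).drop d with
  | x :: Z => some (X.take i ++ x :: ((X.drop i).take d ++ Z))
  | [] => none

lemma mov_spec (f : El → ℤ) {i d : ℕ} {X Z : List El} (h : mov i d X = some Z) (Y : List ℤ) :
    Rch d (X.map f) Y (Z.map f) Y := by
  unfold mov at h
  split at h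
  · rename_i x T h1
    cases h
    have l1 := congrArg List.length h1
    simp only [List.length_drop, List.length_cons] at l1
    refine (rch_up (f x) (((X.drop i).take d).map f) ((X.take i).map f) (T.map f) Y).symm.cast
      (by simp; omega) ?_ rfl (by simp) rfl
    rw [← List.map_cons, ← List.map_append, ← List.map_append, ← h1, List.take_append_drop,
      List.take_append_drop]
  · cases h

def loc : List ℕ → List El × List El → Option (List El × List El)
  | [], s => some s
  | c :: l, s =>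
    match flp (c / 256 + c / 4 % 64) (c / 2 % 2) s with
    | (X, Y) => (mov (c / 256) (c / 4 % 64) X).bind fun Z => loc l (flp (c / 256) (c % 2) (Z, Y))

theorem loc_realize : True := by have := @loc.eq_def; trivial

def lco (l : List ℕ) : ℕ := (l.map fun c => c / 4 % 64).sum

lemma loc_spec (f : El → ℤ) (l : List ℕ) : ∀ (s o : List El × List El), loc l s = some o →
    Rch (lco l) (s.1.map f) (s.2.map f) (o.1.map f) (o.2.map f) := by
  induction l with
  | nil => intro s o h; cases h; exact .refl _ _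
  | cons c l ih =>
    intro s o h
    obtain ⟨Z, e, h⟩ := Option.bind_eq_some_iff.1 h
    exact (((flp_spec f _ _ s).trans (mov_spec f e _)).trans
      ((flp_spec f _ _ (Z, _)).trans (ih _ _ h))).cast (by simp [lco]) rfl rfl rfl rfl

/-- a window travels along the rows; the riders first pass a growing block -/
lemma rch_loop (c : ℕ) (SX SY WX WY R U E : ℕ → List ℤ) (hl : ∀ i, (SX i).length = (SY i).length)
    (hR : ∀ i, (R i).length = 8) (hE : ∀ i, (E i).length = 4)
    (h : ∀ i, Rch (c + 16) (WX i ++ R i) (WY i ++ U i) (SX i ++ (WX (i + 1) ++ (E i).reverse))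
      (SY i ++ WY (i + 1))) (D : List ℤ) (n : ℕ) : ∀ S T : List ℤ,
    Rch (n * (c + 8 * D.length + 16 * n)) (WX 0 ++ (D ++ (fl R n ++ S))) (WY 0 ++ (fl U n ++ T))
      (fl SX n ++ (WX n ++ ((fl E n).reverse ++ (D ++ S)))) (fl SY n ++ (WY n ++ T)) := by
  induction n with
  | zero => intro S T; exact (Rch.refl _ _).cast (by simp) rfl rfl (by simp [fl]) (by simp [fl])
  | succ n ih =>
    intro S T
    have s1 := ih (R n ++ S) (U n ++ T)
    have s2 := rch_pass ((fl E n).reverse ++ D) (R n) (fl SX n ++ WX n) S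
      (fl SY n ++ (WY n ++ (U n ++ T)))
    have l : (fl SX n).length = (fl SY n).length := by
      clear s1 s2 ih
      induction n with
      | zero => rfl
      | succ n ih => simp [fl, ih, hl]
    have s3 := (h n).ctx _ _ ((fl E n).reverse ++ (D ++ S)) T l
    exact ((s1.trans (s2.cast rfl (by simp) rfl rfl rfl)).trans
      (s3.cast rfl (by simp) (by simp) rfl rfl)).cast (by simp [fl_len hE, hR]; ring)
      (by simp [fl]) (by simp [fl]) (by simp [fl]) (by simp [fl])

def dub (es : List El) : List El := (es ++ sh (1, 0) es).map fun e => (e.1, e.2.1, 2 * e.2.2)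

lemma sbk_dub (r n : ℕ) (es : List El) : sbk r (dub es) n = sbk r es (2 * n) := by
  rw [sbk, sbk, fl_dbl]
  refine fl_congr fun i _ => ?_
  have e : ∀ l : List El, (l.map fun e => (e.1, e.2.1, 2 * e.2.2)).map (ev r i) =
      l.map (ev r (2 * i)) := fun l => by
    rw [List.map_map]
    exact List.map_congr_left fun e _ => by simp only [Function.comp, ev]; push_cast; ring
  rw [dub, e, List.map_append, sh_ev, show av r (1, 0) + 2 * i = 2 * i + 1 by simp [av, add_comm]]

def atoms (l : List Sg) : List El :=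
  l.flatMap fun s => (List.range s.1.1).flatMap fun i => sh (i, 0) s.2

def hd (l : List Sg) (g : ℤ) : El := ((((l.headD default).2).headD default).1,
  (((l.headD default).2).headD default).2.1, g)

def stp (g : ℤ) (l : List Sg) : List El :=
  (atoms l).map fun e => (e.1, e.2.1, if 0 < e.1 then 8 * g else -4 * g)

/-- an old move, a local program, or a repeated local program -/
inductive Op2 where
  | b (p : Op)
  | lc (lo : Af) (k : ℕ) (q : List ℕ)
  | lp (lo n d : Af) (w : ℕ) (g : ℤ) (q : List ℕ)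

def step2 : Op2 → List Sg → List Sg → Option (List Sg × List Sg)
  | .b p, X, Y => step p X Y
  | .lc lo k q, X, Y =>
    (cut X lo).bind fun x => (cut x.2 (k, 0)).bind fun x' =>
    (cut Y lo).bind fun y => (cut y.2 (k, 0)).bind fun y' =>
    (loc q (atoms x'.1, atoms y'.1)).bind fun o =>
      if eqv x'.1 [((1, 0), atoms x'.1)] && eqv y'.1 [((1, 0), atoms y'.1)] then
        some (x.1 ++ ((1, 0), o.1) :: x'.2, y.1 ++ ((1, 0), o.2) :: y'.2) else none
  | .lp lo n d w g q, X, Y =>
    if n = (0, 0) then some (X, Y) else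
    (cut X lo).bind fun x => (cut x.2 (w, 0)).bind fun x1 => (cut x1.2 d).bind fun x2 =>
    (cut x2.2 (8 * n.1, 8 * n.2)).bind fun x3 =>
    (cut Y lo).bind fun y => (cut y.2 (w, 0)).bind fun y1 =>
    (cut y1.2 (4 * n.1, 4 * n.2)).bind fun y2 =>
    (loc q (stp g x1.1 ++ dub (dub (dub [hd x3.1 g])), stp g y1.1 ++ dub (dub [hd y2.1 (-g)]))).bind
      fun o =>
      if o.1 = o.1.take 4 ++ (sh (1, 0) (stp g x1.1) ++
            (dub (dub [hd [((1, 0), o.1.reverse)] (-g)])).reverse) ∧
          o.2 = o.2.take 4 ++ sh (1, 0) (stp g y1.1) ∧ (o.1.take 4).length = (o.2.take 4).length ∧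
          16 ≤ lco q ∧ eqv x1.1 [((1, 0), stp g x1.1)] ∧ eqv y1.1 [((1, 0), stp g y1.1)] ∧
          eqv x3.1 [((8 * n.1, 8 * n.2), [hd x3.1 g])] ∧
          eqv y2.1 [((4 * n.1, 4 * n.2), [hd y2.1 (-g)])] then
        some (x.1 ++ (n, o.1.take 4) :: ((1, 0), sh n (stp g x1.1)) ::
            (revL [((4 * n.1, 4 * n.2), [hd [((1, 0), o.1.reverse)] (-g)])] ++ (x2.1 ++ x3.2)),
          y.1 ++ (n, o.2.take 4) :: ((1, 0), sh n (stp g y1.1)) :: y2.2)
      else none

def cst : Op2 → Af × Af
  | .b p => (p.a, cof p.k p.a p.b)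
  | .lc _ _ q => ((1, 0), (lco q, 0))
  | .lp _ n d _ _ q => (n, (lco q - 16 + 8 * d.1 + 16 * n.1, 8 * d.2 + 16 * n.2))

lemma av_one (r : ℕ) : av r (1, 0) = 1 := by simp [av]

lemma step2_spec (r : ℕ) {p : Op2} {X Y : List Sg} {o : List Sg × List Sg}
    (h : step2 p X Y = some o) :
    Rch (av r (cst p).1 * av r (cst p).2) (den r X) (den r Y) (den r o.1) (den r o.2) := by
  cases p with
  | b p => exact step_spec r h
  | lc lo k q =>
    obtain ⟨x, e1, h⟩ := Option.bind_eq_some_iff.1 h
    obtain ⟨x', e2, h⟩ := Option.bind_eq_some_iff.1 h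
    obtain ⟨y, e3, h⟩ := Option.bind_eq_some_iff.1 h
    obtain ⟨y', e4, h⟩ := Option.bind_eq_some_iff.1 h
    obtain ⟨z, e5, h⟩ := Option.bind_eq_some_iff.1 h
    split_ifs at h with h1
    cases h
    rw [Bool.and_eq_true] at h1
    obtain ⟨a1, b1⟩ := cut_spec r e1
    obtain ⟨a2, -⟩ := cut_spec r e2
    obtain ⟨a3, b3⟩ := cut_spec r e3
    obtain ⟨a4, -⟩ := cut_spec r e4
    exact ((loc_spec (ev r 0) q _ _ e5).ctx _ _ (den r x'.2) (den r y'.2) (b1.trans b3.symm)).cast
      (by simp [cst, av]) (by rw [a1, a2, eqv_spec r h1.1]; simp [den, av_one, sbk_one])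
      (by rw [a3, a4, eqv_spec r h1.2]; simp [den, av_one, sbk_one])
      (by simp [den_append, den, av_one, sbk_one]) (by simp [den_append, den, av_one, sbk_one])
  | lp lo n d w g q =>
    by_cases h0 : n = (0, 0)
    · rw [step2, if_pos h0] at h
      cases h; exact (Rch.refl _ _).cast (by simp [cst, h0, av]) rfl rfl rfl rfl
    rw [step2, if_neg h0] at h
    obtain ⟨x, e1, h⟩ := Option.bind_eq_some_iff.1 h
    obtain ⟨x1, e2, h⟩ := Option.bind_eq_some_iff.1 h
    obtain ⟨x2, e3, h⟩ := Option.bind_eq_some_iff.1 h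
    obtain ⟨x3, e4, h⟩ := Option.bind_eq_some_iff.1 h
    obtain ⟨y, e5, h⟩ := Option.bind_eq_some_iff.1 h
    obtain ⟨y1, e6, h⟩ := Option.bind_eq_some_iff.1 h
    obtain ⟨y2, e7, h⟩ := Option.bind_eq_some_iff.1 h
    obtain ⟨z, e8, h⟩ := Option.bind_eq_some_iff.1 h
    split_ifs at h with h1
    cases h
    obtain ⟨c1, c2, c3, c4, c5, c6, c7, c8⟩ := h1
    obtain ⟨a1, b1⟩ := cut_spec r e1
    obtain ⟨a2, -⟩ := cut_spec r e2
    obtain ⟨a3, b3⟩ := cut_spec r e3
    obtain ⟨a4, -⟩ := cut_spec r e4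
    obtain ⟨a5, b5⟩ := cut_spec r e5
    obtain ⟨a6, -⟩ := cut_spec r e6
    obtain ⟨a7, -⟩ := cut_spec r e7
    have k8 : av r (8 * n.1, 8 * n.2) = 2 * (2 * (2 * av r n)) := by simp only [av]; ring
    have k4 : av r (4 * n.1, 4 * n.2) = 2 * (2 * av r n) := by simp only [av]; ring
    have d5 := eqv_spec r c5
    have d6 := eqv_spec r c6
    have d7 := eqv_spec r c7
    have d8 := eqv_spec r c8
    simp only [den, av_one, sbk_one, List.append_nil, k8, k4, ← sbk_dub] at d5 d6 d7 d8
    generalize hd [((1, 0), z.1.reverse)] (-g) = u at *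
    have key := rch_loop (lco q - 16) (fun i => (z.1.take 4).map (ev r i))
      (fun i => (z.2.take 4).map (ev r i)) (fun i => (stp g x1.1).map (ev r i))
      (fun i => (stp g y1.1).map (ev r i)) (fun i => (dub (dub (dub [hd x3.1 g]))).map (ev r i))
      (fun i => (dub (dub [hd y2.1 (-g)])).map (ev r i)) (fun i => (dub (dub [u])).map (ev r i))
      (fun i => by simpa using c3) (fun i => by simp [dub, sh])
      (fun i => by simp [dub, sh]) (fun i => (loc_spec (ev r i) q _ _ e8).cast (by omega)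
        (by simp) (by simp)
        (by rw [c1, List.map_append, List.map_append, sh_ev, av_one, add_comm 1, List.map_reverse,
          ← c1])
        (by rw [c2, List.map_append, sh_ev, av_one, add_comm 1, ← c2]))
      (den r x2.1) (av r n) (den r x3.2) (den r y2.2)
    refine (key.ctx _ _ [] [] (b1.trans b5.symm)).cast ?_ ?_ ?_ ?_ ?_
    · simp only [cst, b3, av]; ring
    · rw [a1, a2, a3, a4, d5, d7]; simp [sbk]
    · rw [a5, a6, a7, d6, d8]; simp [sbk]
    · simp only [den_append, den, den_revL, av_one, sbk_one, sh_ev, k4, ← sbk_dub]; simp [sbk]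
    · simp only [den_append, den, av_one, sbk_one, sh_ev]; simp [sbk]

def exe2 : List Op2 → List Sg → List Sg → Option (List Sg × List Sg)
  | [], X, Y => some (X, Y)
  | p :: l, X, Y => (step2 p X Y).bind fun o => exe2 l o.1 o.2

theorem exe2_realize : True := by have := @exe2.eq_def; trivial

def tot2 : List Op2 → ℕ × ℕ × ℕ
  | [] => (0, 0, 0)
  | p :: l => ((cst p).1.1 * (cst p).2.1 + (tot2 l).1,
      (cst p).1.1 * (cst p).2.2 + (cst p).1.2 * (cst p).2.1 + (tot2 l).2.1,
      (cst p).1.2 * (cst p).2.2 + (tot2 l).2.2)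

theorem tot2_realize : True := by have := @tot2.eq_def; trivial

def pv (r : ℕ) (c : ℕ × ℕ × ℕ) : ℕ := c.1 + c.2.1 * r + c.2.2 * (r * r)

lemma exe2_spec (r : ℕ) (l : List Op2) : ∀ (X Y : List Sg) (o : List Sg × List Sg),
    exe2 l X Y = some o → Rch (pv r (tot2 l)) (den r X) (den r Y) (den r o.1) (den r o.2) := by
  induction l with
  | nil => intro X Y o h; cases h; exact (Rch.refl _ _).cast (by simp [tot2, pv]) rfl rfl rfl rfl
  | cons p l ih =>
    intro X Y o h
    obtain ⟨z, e, h⟩ := Option.bind_eq_some_iff.1 h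
    exact ((step2_spec r e).trans (ih _ _ _ h)).cast (by simp only [tot2, av, pv]; ring)
      rfl rfl rfl rfl

/-- run `p` from the start, call `f`, and meet the run of `q` from the end -/
def chk2 (s e : List Sg × List Sg) (p : List Op2)
    (f : List Sg → List Sg → Option (List Sg × List Sg)) (q : List Op2) (c : ℕ × ℕ × ℕ) : Bool :=
  match (exe2 p s.1 s.2).bind fun a => f a.1 a.2, exe2 q e.1 e.2 with
  | some b, some z => eqv b.1 z.1 && eqv b.2 z.2 && ((tot2 p).1 + (tot2 q).1,
      (tot2 p).2.1 + (tot2 q).2.1, (tot2 p).2.2 + (tot2 q).2.2) == c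
  | _, _ => false

/-- the call `f` is justified at cost `k` -/
def Just (r k : ℕ) (f : List Sg → List Sg → Option (List Sg × List Sg)) : Prop :=
  ∀ X Y o, f X Y = some o → Rch k (den r X) (den r Y) (den r o.1) (den r o.2)

lemma chk2_spec {r k : ℕ} {s e : List Sg × List Sg} {p q : List Op2}
    {f : List Sg → List Sg → Option (List Sg × List Sg)} {c : ℕ × ℕ × ℕ}
    (h : chk2 s e p f q c = true) (hf : Just r k f) :
    Rch (k + pv r c) (den r s.1) (den r s.2) (den r e.1) (den r e.2) := by
  unfold chk2 at h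
  split at h
  · rename_i b z e1 e2
    obtain ⟨a, e3, e4⟩ := Option.bind_eq_some_iff.1 e1
    simp only [Bool.and_eq_true, beq_iff_eq] at h
    exact (((exe2_spec r p _ _ _ e3).trans (hf _ _ _ e4)).trans
      ((exe2_spec r q _ _ _ e2).symm.cast rfl (eqv_spec r h.1.1).symm (eqv_spec r h.1.2).symm
        rfl rfl)).cast (by rw [← h.2]; simp only [pv]; ring) rfl rfl rfl rfl
  · cases h

lemma just_id (r : ℕ) : Just r 0 fun X Y => some (X, Y) := by
  intro X Y o h; cases h; exact .refl _ _

def chkG (n : Af) := chk2 ([(n, [(1, 0, 2)])], [(n, [(2, 0, 2)])])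
  ([(n, [(2 * n.1, 2 * n.2, -2)])], [(n, [(2 * n.1 - 1, 2 * n.2, -2)])])

lemma good_of_chkG {r k : ℕ} {n : Af} {p q : List Op2}
    {f : List Sg → List Sg → Option (List Sg × List Sg)} {c : ℕ × ℕ × ℕ}
    (h : chkG n p f q c = true) (hf : Just r k f) : Good (2 * av r n) (k + pv r c) := by
  have h1 := chk2_spec h hf
  simp only [den, sbk, List.map_cons, List.map_nil, fl_single, List.append_nil] at h1
  refine good_of_rch (h1.cast rfl ?_ ?_ ?_ ?_) <;>
    exact List.map_congr_left fun i _ => by simp only [ev, av]; push_cast; ring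

/-! ### the two hypotheses that are called -/

def fx (A : List ℤ) : List ℤ := A.take 1 ++ ((A.drop 2).take 1 ++ A.drop 4)
def fy (A B : List ℤ) : List ℤ := (A.drop 1).take 1 ++ ((A.drop 3).take 1 ++ B)

/-- reversal of the wires that remain when a lens of four wires is removed -/
def LH (m c : ℕ) : Prop := ∀ A B : List ℤ, A.length = m + 4 → B.length = m →
  Rch c (fx A) (fy A B) (fx A.reverse) (fy A.reverse B.reverse)

/-- reversal of an odd number of wires -/
def RH (h c : ℕ) : Prop := ∀ A B : List ℤ, A.length = h + 1 → B.length = h →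
  Rch c A B A.reverse B.reverse

lemma fxy {a b c d : List ℤ} (ha : a.length = 1) (hb : b.length = 1) (hc : c.length = 1)
    (hd : d.length = 1) (E B : List ℤ) : fx (a ++ (b ++ (c ++ (d ++ E)))) = a ++ (c ++ E) ∧
      fy (a ++ (b ++ (c ++ (d ++ E)))) B = b ++ (d ++ B) := by
  obtain ⟨_, rfl⟩ := List.length_eq_one_iff.1 ha
  obtain ⟨_, rfl⟩ := List.length_eq_one_iff.1 hb
  obtain ⟨_, rfl⟩ := List.length_eq_one_iff.1 hc
  obtain ⟨_, rfl⟩ := List.length_eq_one_iff.1 hd
  simp [fx, fy]

def spl (A B : List Sg) : Option (List Sg × List Sg) :=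
  (cut A (1, 0)).bind fun a => (cut a.2 (1, 0)).bind fun b => (cut b.2 (1, 0)).bind fun c =>
    (cut c.2 (1, 0)).map fun d => (a.1 ++ (c.1 ++ d.2), b.1 ++ (d.1 ++ B))

lemma spl_spec (r : ℕ) {A B : List Sg} {o : List Sg × List Sg} (h : spl A B = some o) :
    den r o.1 = fx (den r A) ∧ den r o.2 = fy (den r A) (den r B) := by
  obtain ⟨a, e1, h⟩ := Option.bind_eq_some_iff.1 h
  obtain ⟨b, e2, h⟩ := Option.bind_eq_some_iff.1 h
  obtain ⟨c, e3, h⟩ := Option.bind_eq_some_iff.1 h
  obtain ⟨d, e4, rfl⟩ := Option.map_eq_some_iff.1 h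
  obtain ⟨a1, b1⟩ := cut_spec r e1
  obtain ⟨a2, b2⟩ := cut_spec r e2
  obtain ⟨a3, b3⟩ := cut_spec r e3
  obtain ⟨a4, b4⟩ := cut_spec r e4
  rw [av_one] at b1 b2 b3 b4
  have := fxy b1 b2 b3 b4 (den r d.2) (den r B)
  rw [a1, a2, a3, a4, this.1, this.2]
  simp only [den_append, and_self]

def callL (m : Af) (X Y : List Sg) : Option (List Sg × List Sg) :=
  (cut X (1, 0)).bind fun a => (cut a.2 (1, 0)).bind fun c => (cut c.2 m).bind fun A =>
  (cut Y (1, 0)).bind fun b => (cut b.2 (1, 0)).bind fun d => (cut d.2 m).bind fun B =>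
    (spl (revL (a.1 ++ (b.1 ++ (c.1 ++ (d.1 ++ A.1))))) (revL B.1)).map fun o =>
      (o.1 ++ A.2, o.2 ++ B.2)

lemma just_callL {r k : ℕ} {m : Af} (hm : LH (av r m) k) : Just r k (callL m) := by
  intro X Y o h
  obtain ⟨a, e1, h⟩ := Option.bind_eq_some_iff.1 h
  obtain ⟨c, e2, h⟩ := Option.bind_eq_some_iff.1 h
  obtain ⟨A, e3, h⟩ := Option.bind_eq_some_iff.1 h
  obtain ⟨b, e4, h⟩ := Option.bind_eq_some_iff.1 h
  obtain ⟨d, e5, h⟩ := Option.bind_eq_some_iff.1 h
  obtain ⟨B, e6, h⟩ := Option.bind_eq_some_iff.1 h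
  obtain ⟨z, e7, rfl⟩ := Option.map_eq_some_iff.1 h
  obtain ⟨a1, b1⟩ := cut_spec r e1
  obtain ⟨a2, b2⟩ := cut_spec r e2
  obtain ⟨a3, b3⟩ := cut_spec r e3
  obtain ⟨a4, b4⟩ := cut_spec r e4
  obtain ⟨a5, b5⟩ := cut_spec r e5
  obtain ⟨a6, b6⟩ := cut_spec r e6
  obtain ⟨a7, b7⟩ := spl_spec r e7
  rw [av_one] at b1 b2 b4 b5
  simp only [den_revL, den_append] at a7 b7
  have := fxy b1 b4 b2 b5 (den r A.1) (den r B.1)
  have key := hm (den r a.1 ++ (den r b.1 ++ (den r c.1 ++ (den r d.1 ++ den r A.1)))) (den r B.1)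
    (by simp [b1, b2, b3, b4, b5]; omega) b6
  rw [this.1, this.2, ← a7, ← b7] at key
  exact (key.ctx [] [] (den r A.2) (den r B.2) rfl).cast rfl (by simp [a1, a2, a3])
    (by simp [a4, a5, a6]) (by simp [den_append]) (by simp [den_append])

def callR (h : Af) (X Y : List Sg) : Option (List Sg × List Sg) :=
  (cut X (h.1 + 1, h.2)).bind fun A => (cut Y h).map fun B => (revL A.1 ++ A.2, revL B.1 ++ B.2)

lemma just_callR {r k : ℕ} {m : Af} (hm : RH (av r m) k) : Just r k (callR m) := by
  intro X Y o h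
  obtain ⟨A, e1, h⟩ := Option.bind_eq_some_iff.1 h
  obtain ⟨B, e2, rfl⟩ := Option.map_eq_some_iff.1 h
  obtain ⟨a1, b1⟩ := cut_spec r e1
  obtain ⟨a2, b2⟩ := cut_spec r e2
  exact ((hm _ _ (by rw [b1]; simp only [av]; ring) b2).ctx [] [] (den r A.2) (den r B.2) rfl).cast
    rfl (by simp [a1]) (by simp [a2]) (by simp [den_append, den_revL])
    (by simp [den_append, den_revL])

def chkL (m : Af) (p : List Op2) (f : List Sg → List Sg → Option (List Sg × List Sg))
    (q : List Op2) (c : ℕ × ℕ × ℕ) : Bool :=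
  match spl [((m.1 + 4, m.2), [(1, 0, 1)])] [(m, [(0, 0, -1)])],
    spl (revL [((m.1 + 4, m.2), [(1, 0, 1)])]) (revL [(m, [(0, 0, -1)])]) with
  | some s, some e => chk2 s e p f q c
  | _, _ => false

lemma lh_of_chkL {r k : ℕ} {m : Af} {p q : List Op2}
    {f : List Sg → List Sg → Option (List Sg × List Sg)} {c : ℕ × ℕ × ℕ}
    (h : chkL m p f q c = true) (hf : Just r k f) : LH (av r m) (k + pv r c) := by
  unfold chkL at h
  split at h
  · rename_i s e e1 e2
    intro A B hA hB
    have h1 := (chk2_spec h hf).map fun z => if 0 < z then A.getD (z - 1).toNat 0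
      else B.getD (-z).toNat 0
    obtain ⟨a1, a2⟩ := spl_spec r e1
    obtain ⟨a3, a4⟩ := spl_spec r e2
    rw [a1, a2, a3, a4] at h1
    simp only [den_revL, fx, fy, List.map_append, List.map_take, List.map_drop,
      List.map_reverse] at h1
    simp only [den, sbk, List.map_cons, List.map_nil, fl_single, List.append_nil, List.map_map,
      show av r (m.1 + 4, m.2) = av r m + 4 by simp only [av]; ring] at h1
    have eA : (List.range (av r m + 4)).map ((fun z => if 0 < z then A.getD (z - 1).toNat 0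
        else B.getD (-z).toNat 0) ∘ fun i => ev r i (1, 0, 1)) = A := by
      refine List.ext_getElem (by simp [hA]) fun i h2 h3 => ?_
      simp only [List.getElem_map, List.getElem_range, Function.comp, ev]
      rw [if_pos (by omega), show (1 + 0 * (r : ℤ) + i * 1 - 1).toNat = i by omega,
        List.getD_eq_getElem _ _ h3]
    have eB : (List.range (av r m)).map ((fun z => if 0 < z then A.getD (z - 1).toNat 0
        else B.getD (-z).toNat 0) ∘ fun i => ev r i (0, 0, -1)) = B := by
      refine List.ext_getElem (by simp [hB]) fun i h2 h3 => ?_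
      simp only [List.getElem_map, List.getElem_range, Function.comp, ev]
      rw [if_neg (by omega), show (-(0 + 0 * (r : ℤ) + i * -1)).toNat = i by omega,
        List.getD_eq_getElem _ _ h3]
    rw [eA, eB] at h1
    exact h1
  · cases h

/-! ### from words to rows -/

lemma range_split (f : ℕ → ℤ) (i m : ℕ) : (List.range (i + 1 + m)).map f =
    (List.range i).map f ++ f i :: (List.range m).map fun j => f (i + 1 + j) := by
  rw [List.range_add, List.range_succ]; simp

lemma rch_of_word (h : ℕ) (w : List ℕ) (hw : Inb (2 * h + 1) w) : ∀ g : ℕ → ℤ,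
    Rch (cost w) ((List.range (h + 1)).map fun i => g (2 * i + 1))
      ((List.range h).map fun i => g (2 * i + 2))
      ((List.range (h + 1)).map fun i => g (pr w (2 * i + 1)))
      ((List.range h).map fun i => g (pr w (2 * i + 2))) := by
  induction w with
  | nil => intro g; exact .refl _ _
  | cons k w ih =>
    intro g
    obtain ⟨hk, hw⟩ := inb_cons.1 hw
    refine (Rch.trans (c := if k % 2 = 0 then 1 else 0) ?_ (ih hw fun p => g (s k p))).cast
      (by rw [cost_cons, add_comm]) rfl rfl rfl rfl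
    obtain ⟨i, m, rfl, hi⟩ : ∃ i m, h = i + 1 + m ∧ (k = 2 * i + 1 ∨ k = 2 * i + 2) :=
      ⟨(k - 1) / 2, h - 1 - (k - 1) / 2, by omega, by omega⟩
    have e : ∀ (n : ℕ) (u : ℕ → ℕ), (∀ j < n, u j ≠ k ∧ u j ≠ k + 1) →
        (List.range n).map (fun j => g (s k (u j))) = (List.range n).map fun j => g (u j) :=
      fun n u hu => List.map_congr_left fun j hj => by
        have := hu j (List.mem_range.1 hj)
        rw [s_apply, if_neg this.1, if_neg this.2]
    rw [show i + 1 + m + 1 = i + 1 + (0 + 1 + m) by ring]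
    simp only [range_split, List.range_zero, List.map_nil, List.nil_append]
    rw [e i _ fun j hj => by omega, e i _ fun j hj => by omega, e m _ fun j hj => by omega,
      e m _ fun j hj => by omega]
    rcases hi with rfl | rfl
    · rw [if_neg (by omega)]
      refine (Rch.flip _ _ _ _ _ _ (by simp)).cast rfl rfl rfl ?_ ?_ <;>
      · simp [s_apply, mul_add]
    · rw [if_pos (by omega)]
      refine (((Rch.flip _ _ _ _ _ _ (by simp)).trans (Rch.swap _ _ _ _ _)).trans
        (Rch.flip _ _ _ _ _ _ (by simp))).cast rfl rfl rfl ?_ ?_ <;>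
      · simp [s_apply, mul_add]

lemma rh_of_good {h c : ℕ} (hg : Good (2 * h + 1 + 1) c) : ∃ k, k + h ≤ c ∧ RH h k := by
  obtain ⟨w, h1, h2, h3⟩ := good_remove (by omega) hg
  refine ⟨cost w, by omega, fun A B hA hB => ?_⟩
  refine (rch_of_word h w h1 fun p => if p % 2 = 1 then A.getD (p / 2) 0
    else B.getD (p / 2 - 1) 0).cast rfl ?_ ?_ ?_ ?_
  all_goals
    refine List.ext_getElem (by simp [hA, hB]) fun i h4 h5 => ?_
    simp only [List.length_map, List.length_range] at h4
    simp only [List.getElem_map, List.getElem_range, h2, rv_apply, List.getElem_reverse]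
  · rw [if_pos (by omega), show (2 * i + 1) / 2 = i by omega, List.getD_eq_getElem _ _ h5]
  · rw [if_neg (by omega), show (2 * i + 2) / 2 - 1 = i by omega, List.getD_eq_getElem _ _ h5]
  · rw [if_pos (show 1 ≤ 2 * i + 1 ∧ 2 * i + 1 ≤ 2 * h + 1 by omega), if_pos (by omega),
      show (2 * h + 1 + 1 - (2 * i + 1)) / 2 = A.length - 1 - i by omega, List.getD_eq_getElem]
  · rw [if_pos (show 1 ≤ 2 * i + 2 ∧ 2 * i + 2 ≤ 2 * h + 1 by omega), if_neg (by omega),
      show (2 * h + 1 + 1 - (2 * i + 2)) / 2 - 1 = B.length - 1 - i by omega, List.getD_eq_getElem]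

def ins2 (r m : ℕ) : Op2 → Op2
  | .b p => .b (ins r m p)
  | .lc lo k q => .lc (ia r m lo) k q
  | .lp lo n d w g q => .lp (ia r m lo) (ia r m n) (ia r m d) w g q

end Pool.Agent.P.MP_894816_co
end
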