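import Pool.Agent.K.MP_894816_co.C2
import Pool.Agent.K.MP_894816_co.C0
import Pool.Agent.P.MP_894816_co.Defs
import Pool.Agent.K.MP_894816_co.C1

-- part Pool.Agent.P.MP_894816_co.Glue
section

namespace Pool.Agent.P.MP_894816_co

open Equiv

/-- ascending word `a, ..., a+m-1` -/
def up (a : ℕ) : ℕ → List ℕ
  | 0 => []
  | m + 1 => up a m ++ [a + m]

lemma up_mem {a m k : ℕ} (h : k ∈ up a m) : a ≤ k ∧ k < a + m := by
  induction m with
  | zero => simp [up] at h
  | succ m ih =>
    rcases List.mem_append.1 h with h | h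
    · have := ih h; omega
    · have := List.mem_singleton.1 h; omega

lemma pr_up (a m : ℕ) : ∀ p,
    pr (up a m) p = if p = a + m then a else if a ≤ p ∧ p < a + m then p + 1 else p := by
  induction m with
  | zero => intro p; simp only [up, pr_nil, Perm.one_apply]; split_ifs <;> omega
  | succ m ih =>
    intro p
    rw [up, pr_append, pr_cons, pr_nil, mul_one, Perm.mul_apply, ih, s_apply]; split_ifs <;> omega

lemma cost_up (a m : ℕ) : cost (up a m) + (a + 1) / 2 = (a + m + 1) / 2 := by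
  induction m with
  | zero => simp [up]
  | succ m ih => rw [up, cost_append, cost_cons, cost_nil]; split_ifs <;> omega

/-- the inner wires pass one at a time through the `P` outer wires -/
def passes (P : ℕ) : ℕ → List ℕ
  | 0 => []
  | r + 1 => up (r + 1) P ++ passes P r

lemma pr_passes (P r : ℕ) : ∀ p, pr (passes P r) p =
    if 1 ≤ p ∧ p ≤ P then r + p else if P < p ∧ p ≤ P + r then p - P else p := by
  induction r with
  | zero => intro p; simp only [passes, pr_nil, Perm.one_apply]; split_ifs <;> omega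
  | succ r ih => intro p; rw [passes, pr_append, Perm.mul_apply, ih, pr_up]; split_ifs <;> omega

def outer (P : ℕ) (w : ℕ → List ℕ) : ℕ → List ℕ
  | 0 => []
  | r + 1 => up (r + 1) P ++ ((w r).map (· + r) ++ outer P w r)

def prodw (w : ℕ → List ℕ) : ℕ → Perm ℕ
  | 0 => 1
  | r + 1 => pr (w r) * prodw w r

lemma pr_outer (P : ℕ) (w : ℕ → List ℕ) (hw : ∀ r, Inb P (w r)) (r : ℕ) :
    pr (outer P w r) = pr (passes P r) * prodw w r := by
  induction r with
  | zero => simp [outer, passes, prodw]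
  | succ r ih =>
    have : pr (passes P r) * pr (w r) = pr ((w r).map (· + r)) * pr (passes P r) := by
      refine pr_map_conj _ _ _ fun k hk => ?_
      have := hw r k hk
      ext p; simp only [Perm.mul_apply, s_apply, pr_passes]; split_ifs <;> omega
    rw [outer, passes, prodw, pr_append, pr_append, pr_append, ih, ← mul_assoc (pr (List.map _ _)),
      ← this]
    simp only [mul_assoc]

lemma inb_outer (P : ℕ) (w : ℕ → List ℕ) (hw : ∀ r, Inb P (w r)) (r : ℕ) :
    Inb (r + P) (outer P w r) := by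
  induction r with
  | zero => exact inb_nil _
  | succ r ih =>
    refine inb_append.2 ⟨fun k hk => by have := up_mem hk; omega,
      inb_append.2 ⟨fun k hk => ?_, ih.mono (by omega)⟩⟩
    obtain ⟨j, hj, rfl⟩ := List.mem_map.1 hk
    have := hw r j hj; omega

lemma cost_outer (P : ℕ) (hP : P % 2 = 1) (w : ℕ → List ℕ) (r : ℕ) :
    cost (outer P w r) =
      r * (P / 2) + r / 2 + ∑ i ∈ Finset.range r, cost ((w i).map (· + i)) := by
  induction r with
  | zero => simp [outer]
  | succ r ih =>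
    rw [outer, cost_append, cost_append, ih, Finset.sum_range_succ, add_one_mul]
    have := cost_up (r + 1) P
    omega

/-- gluing an inner reversal and an outer structure -/
lemma good_glue {q P c d : ℕ} (hq : q % 2 = 1) (hP : P % 2 = 1) (h : Good (q + 1) c)
    (w : ℕ → List ℕ) (hw : ∀ r, Inb P (w r)) (F : List ℕ) (hF : Inb P F)
    (e : prodw w q * pr F = rv P)
    (hd : ∑ i ∈ Finset.range q, cost ((w i).map (· + i)) + cost F ≤ d) :
    Good (q + P) (c + q * (P / 2) + d) := by
  obtain ⟨W, h1, h2, h3⟩ := good_remove hq h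
  refine ⟨W ++ (outer P w q ++ F), inb_append.2 ⟨h1.mono (by omega),
    inb_append.2 ⟨inb_outer P w hw q, hF.mono (by omega)⟩⟩, ?_, ?_⟩
  · rw [pr_append, pr_append, h2, pr_outer P w hw, mul_assoc, e]
    ext p; simp only [Perm.mul_apply, rv_apply, pr_passes]; split_ifs <;> omega
  · rw [cost_append, cost_append, cost_outer P hP]; omega

/-- blocks that alternate between a word and its mirror image -/
def alt (P : ℕ) (v : List ℕ) (r : ℕ) : List ℕ := if r % 2 = 0 then v else v.map (P - ·)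

lemma inb_alt {P : ℕ} {v : List ℕ} (h : Inb P v) (r : ℕ) : Inb P (alt P v r) := by
  unfold alt; split_ifs
  · exact h
  · exact inb_flip h

lemma cost_alt {P : ℕ} (hP : P % 2 = 1) {v : List ℕ} (h : Inb P v) (r : ℕ) :
    cost ((alt P v r).map (· + r)) = cost v := by
  unfold alt; split_ifs with hr
  · exact cost_map _ _ fun k _ => by omega
  · rw [List.map_map]
    exact cost_map _ _ fun k hk => by have := h k hk; simp only [Function.comp]; omega

lemma prodw_alt {P : ℕ} {v : List ℕ} (h : Inb P v) (r : ℕ) :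
    prodw (alt P v) r = (if r % 2 = 0 then 1 else rv P) * (rv P * pr v) ^ r := by
  induction r with
  | zero => simp [prodw]
  | succ r ih =>
    rw [prodw, ih, alt, pow_succ']
    by_cases hr : r % 2 = 0
    · rw [if_pos hr, if_pos hr, if_neg (by omega), one_mul, ← mul_assoc, ← mul_assoc,
        rv_mul_self, one_mul]
    · rw [if_neg hr, if_neg hr, if_pos (by omega), pr_flip h, one_mul, ← mul_assoc,
        mul_assoc _ (rv P) (rv P), rv_mul_self, mul_one]

end Pool.Agent.P.MP_894816_co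
end

-- part Pool.Agent.P.MP_894816_co.Triple
section

namespace Pool.Agent.P.MP_894816_co

open Equiv

/-- letters `1, 3, ..., 2m-1` -/
def lay : ℕ → List ℕ
  | 0 => []
  | m + 1 => (2 * m + 1) :: lay m

lemma lay_mem {m k : ℕ} (h : k ∈ lay m) : k % 2 = 1 ∧ k < 2 * m := by
  induction m with
  | zero => simp [lay] at h
  | succ m ih =>
    rcases List.mem_cons.1 h with h | h
    · omega
    · have := ih h; omega

lemma cost_lay (m : ℕ) : cost (lay m) = 0 := by
  induction m with
  | zero => rfl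
  | succ m ih => rw [lay, cost_cons, ih]; split_ifs <;> omega

lemma pr_lay (m p : ℕ) : pr (lay m) p =
    if 1 ≤ p ∧ p ≤ 2 * m then (if p % 2 = 1 then p + 1 else p - 1) else p := by
  induction m with
  | zero => simp only [lay, pr_nil, Perm.one_apply]; split_ifs <;> omega
  | succ m ih => rw [lay, pr_cons, Perm.mul_apply, ih, s_apply]; split_ifs <;> omega

/-- `m` consecutive swaps between neighbouring bins, starting at level `a` and going up -/
def run (a : ℕ) : ℕ → List ℕ
  | 0 => []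
  | m + 1 => run a m ++ [a + 2 * m, a + 2 * m - 1, a + 2 * m + 1]

lemma run_mem {a m k : ℕ} (h : k ∈ run a m) : a ≤ k + 1 ∧ k + 1 ≤ a + 2 * m := by
  induction m with
  | zero => simp [run] at h
  | succ m ih =>
    rcases List.mem_append.1 h with h | h
    · have := ih h; omega
    · simp only [List.mem_cons, List.not_mem_nil, or_false] at h; omega

lemma cost_run {a : ℕ} (ha : a % 2 = 0) (h2 : 2 ≤ a) (m : ℕ) : cost (run a m) = m := by
  induction m with
  | zero => rfl
  | succ m ih =>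
    rw [run, cost_append, ih, cost_cons, cost_cons, cost_cons, cost_nil]; split_ifs <;> omega

lemma pr_gm {j : ℕ} (hj : 2 ≤ j) (p : ℕ) : pr [j, j - 1, j + 1] p =
    if p + 1 = j then j + 1 else if p = j then j - 1 else if p = j + 1 then j + 2
    else if p = j + 2 then j else p := by
  simp only [pr_cons, pr_nil, mul_one, Perm.mul_apply]
  have h1 := s_apply (j + 1) p
  generalize s (j + 1) p = p1 at h1 ⊢
  have h2 := s_apply (j - 1) p1
  generalize s (j - 1) p1 = p2 at h2 ⊢
  rw [s_apply]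
  split_ifs at h1 h2 ⊢ <;> omega

lemma pr_run {a : ℕ} (ha : a % 2 = 0) (h2 : 2 ≤ a) (m : ℕ) : ∀ p, pr (run a (m + 1)) p =
    if p = a then a - 1 else if p = a + 2 * m + 2 then a else if p = a + 2 * m + 1 then p + 1
    else if a ≤ p + 1 ∧ p ≤ a + 2 * m ∧ p % 2 = 1 then p + 2 else p := by
  induction m with
  | zero =>
    intro p
    rw [run, run, List.nil_append, pr_gm (by omega)]
    split_ifs <;> omega
  | succ m ih =>
    intro p
    rw [run, pr_append, Perm.mul_apply, ih]
    have h1 := pr_gm (j := a + 2 * (m + 1)) (by omega) p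
    generalize pr [a + 2 * (m + 1), a + 2 * (m + 1) - 1, a + 2 * (m + 1) + 1] p = p1 at h1 ⊢
    split_ifs at h1 ⊢ <;> omega

/-- the short runs in the thin layers -/
def thin (a : ℕ) : ℕ → List ℕ
  | 0 => []
  | i + 1 => run (a + 10 * i) 3 ++ thin a i

lemma thin_mem {a i k : ℕ} (h : k ∈ thin a i) : a ≤ k + 1 ∧ k + 5 ≤ a + 10 * i := by
  induction i with
  | zero => simp [thin] at h
  | succ i ih =>
    rcases List.mem_append.1 h with h | h
    · have := run_mem h; omega
    · have := ih h; omega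

lemma cost_thin {a : ℕ} (ha : a % 2 = 0) (h2 : 2 ≤ a) (i : ℕ) : cost (thin a i) = 3 * i := by
  induction i with
  | zero => rfl
  | succ i ih => rw [thin, cost_append, ih, cost_run (by omega) (by omega)]; omega

lemma pr_thin {a : ℕ} (ha : a % 2 = 0) (h2 : 2 ≤ a) (i p : ℕ) : pr (thin a i) p =
    if a ≤ p + 1 ∧ p + 1 < a + 10 * i then
      (if (p + 1 - a) % 10 = 1 then p - 1 else if (p + 1 - a) % 10 = 7 then p - 6
       else if (p + 1 - a) % 10 = 6 then p + 1
       else if (p + 1 - a) % 10 ≤ 4 ∧ p % 2 = 1 then p + 2 else p) else p := by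
  induction i with
  | zero => simp only [thin, pr_nil, Perm.one_apply]; split_ifs <;> omega
  | succ i ih =>
    rw [thin, pr_append, Perm.mul_apply]
    generalize pr (thin a i) p = p1 at ih ⊢
    rw [pr_run (by omega) (by omega) 2]
    split_ifs at ih ⊢ <;> omega

/-- the block of the tripling construction with `2k+1` central wires -/
def blk (t k : ℕ) : List ℕ :=
  lay (6 * t + k - 1) ++ (thin (6 * t - 4 * k) k ++ run (6 * t + 6 * k) (2 * t - 2 * k))

lemma inb_blk {t k : ℕ} (h : k + 2 ≤ t) : Inb (12 * t + 2 * k - 1) (blk t k) := by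
  refine inb_append.2 ⟨fun j hj => ?_, inb_append.2 ⟨fun j hj => ?_, fun j hj => ?_⟩⟩
  · have := lay_mem hj; omega
  · have := thin_mem hj; omega
  · have := run_mem hj; omega

lemma cost_blk {t k : ℕ} (h : k + 2 ≤ t) : cost (blk t k) = 2 * t + k := by
  rw [blk, cost_append, cost_append, cost_lay, cost_thin (by omega) (by omega),
    cost_run (by omega) (by omega)]
  omega

/-- one step of the dynamics: block followed by the mirror -/
def ph (t k : ℕ) : Perm ℕ := rv (12 * t + 2 * k - 1) * pr (blk t k)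

lemma ph_of {t k : ℕ} (h : k + 2 ≤ t) (p p1 p2 p3 : ℕ)
    (h1 : (if p = 6 * t + 6 * k then 6 * t + 6 * k - 1
      else if p = 10 * t + 2 * k then 6 * t + 6 * k else if p + 1 = 10 * t + 2 * k then p + 1
      else if 6 * t + 6 * k ≤ p + 1 ∧ p + 2 ≤ 10 * t + 2 * k ∧ p % 2 = 1 then p + 2 else p) = p1)
    (h2 : (if 6 * t - 4 * k ≤ p1 + 1 ∧ p1 + 1 < 6 * t + 6 * k then
      (if (p1 + 1 - (6 * t - 4 * k)) % 10 = 1 then p1 - 1
       else if (p1 + 1 - (6 * t - 4 * k)) % 10 = 7 then p1 - 6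
       else if (p1 + 1 - (6 * t - 4 * k)) % 10 = 6 then p1 + 1
       else if (p1 + 1 - (6 * t - 4 * k)) % 10 ≤ 4 ∧ p1 % 2 = 1 then p1 + 2 else p1) else p1) = p2)
    (h3 : 1 ≤ p2 ∧ p2 ≤ 12 * t + 2 * k - 1 ∧ (p2 = 12 * t + 2 * k - 1 → p3 = 1) ∧
      (p2 < 12 * t + 2 * k - 1 → p2 % 2 = 1 → p3 + p2 + 1 = 12 * t + 2 * k) ∧
      (p2 % 2 = 0 → p3 + p2 = 12 * t + 2 * k + 1)) : ph t k p = p3 := by
  obtain ⟨m, hm⟩ : ∃ m, 2 * t - 2 * k = m + 1 := ⟨2 * t - 2 * k - 1, by omega⟩
  have e : ph t k p = rv (12 * t + 2 * k - 1) (pr (lay (6 * t + k - 1))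
      (pr (thin (6 * t - 4 * k) k) (pr (run (6 * t + 6 * k) (m + 1)) p))) := by
    simp [ph, blk, hm]
  have e1 : pr (run (6 * t + 6 * k) (m + 1)) p = p1 := by
    rw [pr_run (by omega) (by omega), ← h1]; clear h1 h2 h3 e; split_ifs <;> omega
  have e2 : pr (thin (6 * t - 4 * k) k) p1 = p2 := by
    rw [pr_thin (by omega) (by omega), ← h2,
      show 6 * t - 4 * k + 10 * k = 6 * t + 6 * k by omega]
  rw [e, e1, e2]
  have h4 := pr_lay (6 * t + k - 1) p2
  generalize pr (lay (6 * t + k - 1)) p2 = p4 at h4 ⊢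
  rw [rv_apply]; clear h1 h2 e e1 e2
  split_ifs at h4 ⊢ <;> omega

end Pool.Agent.P.MP_894816_co
end

-- part Pool.Agent.P.MP_894816_co.Orbit
section

namespace Pool.Agent.P.MP_894816_co

open Equiv

variable {t k : ℕ}

lemma z_top (h : k + 2 ≤ t) : ph t k (12 * t + 2 * k - 1) = 1 :=
  ph_of h _ (12 * t + 2 * k - 1) (12 * t + 2 * k - 1) _ (by split_ifs <;> omega)
    (by split_ifs <;> omega) (by omega)

lemma z_odd (h : k + 2 ≤ t) (p y : ℕ) (hp : p % 2 = 1) (hy : y + p + 1 = 12 * t + 2 * k)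
    (hz : p + 1 < 6 * t - 4 * k ∨ (10 * t + 2 * k < p ∧ p < 12 * t + 2 * k - 1) ∨
      ∃ i < k, p + 1 = 6 * t - 4 * k + 10 * i + 8) : ph t k p = y := by
  rcases hz with hz | hz | ⟨i, hi, hz⟩ <;>
  exact ph_of h p p p y (by split_ifs <;> omega) (by split_ifs <;> omega) (by omega)

lemma z_even (h : k + 2 ≤ t) (p y : ℕ) (hp : p % 2 = 0) (hy : y + p = 12 * t + 2 * k + 1)
    (hz : (1 ≤ p ∧ p < 6 * t - 4 * k) ∨
      (6 * t + 6 * k < p ∧ p < 12 * t + 2 * k ∧ p ≠ 10 * t + 2 * k) ∨
      ∃ i < k, p + 1 = 6 * t - 4 * k + 10 * i + 3 ∨ p + 1 = 6 * t - 4 * k + 10 * i + 5 ∨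
        p + 1 = 6 * t - 4 * k + 10 * i + 9) : ph t k p = y := by
  rcases hz with hz | hz | ⟨i, hi, hz | hz | hz⟩ <;>
  exact ph_of h p p p y (by split_ifs <;> omega) (by split_ifs <;> omega) (by omega)

lemma z_end (h : k + 2 ≤ t) : ph t k (10 * t + 2 * k) = 6 * t - 4 * k + 1 :=
  ph_of h _ (6 * t + 6 * k) (6 * t + 6 * k) _ (by split_ifs <;> omega)
    (by split_ifs <;> omega) (by omega)

lemma z_end1 (h : k + 2 ≤ t) : ph t k (10 * t + 2 * k - 1) = 2 * t + 1 :=
  ph_of h _ (10 * t + 2 * k) (10 * t + 2 * k) _ (by split_ifs <;> omega)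
    (by split_ifs <;> omega) (by omega)

lemma z_odd2 (h : k + 2 ≤ t) (p y : ℕ) (hp : p % 2 = 1) (hy : y + p + 3 = 12 * t + 2 * k)
    (hz : (6 * t + 6 * k ≤ p + 1 ∧ p + 2 < 10 * t + 2 * k) ∨
      ∃ i < k, p + 1 = 6 * t - 4 * k + 10 * i ∨ p + 1 = 6 * t - 4 * k + 10 * i + 2 ∨
        p + 1 = 6 * t - 4 * k + 10 * i + 4) : ph t k p = y := by
  rcases hz with hz | ⟨i, hi, hz | hz | hz⟩
  · exact ph_of h p (p + 2) (p + 2) y (by split_ifs <;> omega) (by split_ifs <;> omega) (by omega)
  all_goals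
    exact ph_of h p p (p + 2) y (by split_ifs <;> omega) (by split_ifs <;> omega) (by omega)

lemma z_seven (h : k + 2 ≤ t) (p y i : ℕ) (hi : i < k) (hy : y + p = 12 * t + 2 * k + 7)
    (hz : p + 1 = 6 * t - 4 * k + 10 * i + 7) : ph t k p = y :=
  ph_of h p p (p - 6) y (by split_ifs <;> omega) (by split_ifs <;> omega) (by omega)

def xe (t k u : ℕ) : ℕ :=
  if u = 0 then 12 * t + 2 * k - 1 else if u ≤ t then 12 * t + 2 * k - 2 * u
  else if u ≤ t + k + 1 then 6 * t + 6 * k - 4 - 10 * (u - t - 1)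
  else if u ≤ 2 * t then 10 * t - 4 * u else 6 * t - 2 * u

def xo (t k u : ℕ) : ℕ :=
  if u < t then 2 * u + 1 else if u ≤ t + k then 6 * t - 4 * k + 1 + 10 * (u - t)
  else if u ≤ 2 * t then 2 * t + 2 * k + 1 + 4 * u else 6 * t + 2 * k + 1 + 2 * u

def ye (t k u : ℕ) : ℕ :=
  if u < 2 * t - 2 * k then 2 * t + 1 + 2 * u
  else if u < 2 * t + k then 6 * t - 4 * k + 10 * ((u - (2 * t - 2 * k)) / 3) +
    (if (u - (2 * t - 2 * k)) % 3 = 0 then 3 else if (u - (2 * t - 2 * k)) % 3 = 1 then 7 else 9)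
  else 4 * u + 2 * k + 3 - 2 * t

def yo (t k u : ℕ) : ℕ :=
  if u + 1 < 2 * t - 2 * k then 10 * t + 2 * k - 2 - 2 * u
  else if u + 1 < 2 * t + k then 6 * t + 6 * k - 10 * ((u + 1 - (2 * t - 2 * k)) / 3) -
    (if (u + 1 - (2 * t - 2 * k)) % 3 = 0 then 2
      else if (u + 1 - (2 * t - 2 * k)) % 3 = 1 then 6 else 8)
  else 14 * t - 6 - 4 * u

lemma x_eo (h : k + 2 ≤ t) (u : ℕ) (hu : u + 2 ≤ 3 * t) : ph t k (xe t k u) = xo t k u := by
  have h1 : xe t k u = xe t k u := rfl
  have h2 : xo t k u = xo t k u := rfl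
  conv at h1 => rhs; unfold xe
  conv at h2 => rhs; unfold xo
  generalize xe t k u = p at h1 ⊢
  generalize xo t k u = y at h2 ⊢
  by_cases c1 : u = 0
  · rw [show p = 12 * t + 2 * k - 1 by split_ifs at h1; omega, z_top h]
    split_ifs at h2 <;> omega
  by_cases c2 : u = t
  · rw [show p = 10 * t + 2 * k by split_ifs at h1 <;> omega, z_end h]
    split_ifs at h2 <;> omega
  by_cases c3 : t < u ∧ u ≤ t + k
  · exact z_seven h p y (k - (u - t)) (by omega) (by split_ifs at h1 h2 <;> omega)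
      (by split_ifs at h1 <;> omega)
  · exact z_even h p y (by split_ifs at h1 <;> omega) (by split_ifs at h1 h2 <;> omega)
      (by rw [← or_assoc]; left; split_ifs at h1 <;> omega)

lemma x_oe (h : k + 2 ≤ t) (u : ℕ) (hu : u + 2 ≤ 3 * t) : ph t k (xo t k u) = xe t k (u + 1) := by
  have h1 : xe t k (u + 1) = xe t k (u + 1) := rfl
  have h2 : xo t k u = xo t k u := rfl
  conv at h1 => rhs; unfold xe
  conv at h2 => rhs; unfold xo
  generalize xe t k (u + 1) = y at h1 ⊢
  generalize xo t k u = p at h2 ⊢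
  simp only [Nat.add_eq_zero_iff, one_ne_zero, and_false, if_false] at h1
  by_cases c1 : u < t ∨ 2 * t ≤ u
  · exact z_odd h p y (by split_ifs at h2 <;> omega) (by split_ifs at h1 h2 <;> omega)
      (by rw [← or_assoc]; left; split_ifs at h2 <;> omega)
  refine z_odd2 h p y (by split_ifs at h2 <;> omega) (by split_ifs at h1 h2 <;> omega) ?_
  by_cases hk : t + k ≤ u
  · left; split_ifs at h2 <;> omega
  · exact Or.inr ⟨u - t, by omega, by split_ifs at h2 <;> omega⟩

lemma x_last (h : k + 2 ≤ t) : ph t k (xe t k (3 * t - 1)) = xe t k 0 := by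
  have h1 : xe t k (3 * t - 1) = 2 := by unfold xe; split_ifs <;> omega
  have h2 : xe t k 0 = 12 * t + 2 * k - 1 := by simp [xe]
  rw [h1, h2]; exact z_even h _ _ (by omega) (by omega) (Or.inl (by omega))

lemma y_eo (h : k + 2 ≤ t) (u : ℕ) (hu : u + 2 ≤ 3 * t) : ph t k (ye t k u) = yo t k u := by
  have h1 : ye t k u = ye t k u := rfl
  have h2 : yo t k u = yo t k u := rfl
  conv at h1 => rhs; unfold ye
  conv at h2 => rhs; unfold yo
  generalize ye t k u = p at h1 ⊢
  generalize yo t k u = y at h2 ⊢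
  by_cases c1 : u + 1 < 2 * t - 2 * k
  · exact z_odd h p y (by split_ifs at h1 <;> omega) (by split_ifs at h1 h2 <;> omega)
      (Or.inl (by split_ifs at h1 <;> omega))
  by_cases c2 : u + 1 = 2 * t - 2 * k
  · refine z_odd2 h p y (by split_ifs at h1 <;> omega) (by split_ifs at h1 h2 <;> omega) ?_
    by_cases hk : k = 0
    · left; split_ifs at h1 <;> omega
    · exact Or.inr ⟨0, by omega, by split_ifs at h1 <;> omega⟩
  by_cases c3 : u < 2 * t + k
  · obtain ⟨i, r, hr, hv⟩ : ∃ i r, r < 3 ∧ u = 2 * t - 2 * k + 3 * i + r :=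
      ⟨(u - (2 * t - 2 * k)) / 3, (u - (2 * t - 2 * k)) % 3, by omega, by omega⟩
    rcases (by omega : r = 0 ∨ r = 1 ∨ r = 2) with rfl | rfl | rfl
    · exact z_odd2 h p y (by split_ifs at h1 <;> omega) (by split_ifs at h1 h2 <;> omega)
        (Or.inr ⟨i, by omega, by split_ifs at h1 <;> omega⟩)
    · exact z_odd h p y (by split_ifs at h1 <;> omega) (by split_ifs at h1 h2 <;> omega)
        (Or.inr (Or.inr ⟨i, by omega, by split_ifs at h1 <;> omega⟩))
    · refine z_odd2 h p y (by split_ifs at h1 <;> omega) (by split_ifs at h1 h2 <;> omega) ?_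
      by_cases hk : i + 1 = k
      · left; split_ifs at h1 <;> omega
      · exact Or.inr ⟨i + 1, by omega, by split_ifs at h1 <;> omega⟩
  · exact z_odd2 h p y (by split_ifs at h1 <;> omega) (by split_ifs at h1 h2 <;> omega)
      (Or.inl (by split_ifs at h1 <;> omega))

lemma y_oe (h : k + 2 ≤ t) (u : ℕ) (hu : u + 2 ≤ 3 * t) : ph t k (yo t k u) = ye t k (u + 1) := by
  have h1 : ye t k (u + 1) = ye t k (u + 1) := rfl
  have h2 : yo t k u = yo t k u := rfl
  conv at h1 => rhs; unfold ye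
  conv at h2 => rhs; unfold yo
  generalize ye t k (u + 1) = y at h1 ⊢
  generalize yo t k u = p at h2 ⊢
  by_cases c3 : 2 * t - 2 * k ≤ u + 1 ∧ u + 1 < 2 * t + k
  · obtain ⟨i, r, hr, hv⟩ : ∃ i r, r < 3 ∧ u + 1 = 2 * t - 2 * k + 3 * i + r :=
      ⟨(u + 1 - (2 * t - 2 * k)) / 3, (u + 1 - (2 * t - 2 * k)) % 3, by omega, by omega⟩
    exact z_even h p y (by split_ifs at h2 <;> omega) (by split_ifs at h1 h2 <;> omega)
      (Or.inr (Or.inr ⟨k - 1 - i, by omega, by split_ifs at h2 <;> omega⟩))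
  · exact z_even h p y (by split_ifs at h2 <;> omega) (by split_ifs at h1 h2 <;> omega)
      (by rw [← or_assoc]; left; split_ifs at h2 <;> omega)

lemma y_last (h : k + 2 ≤ t) : ph t k (ye t k (3 * t - 1)) = ye t k 0 := by
  have h1 : ye t k (3 * t - 1) = 10 * t + 2 * k - 1 := by unfold ye; split_ifs <;> omega
  have h2 : ye t k 0 = 2 * t + 1 := by unfold ye; split_ifs <;> omega
  rw [h1, h2]; exact z_end1 h

lemma cyc_fix (g : Perm ℕ) (e o : ℕ → ℕ) (n : ℕ) (h1 : ∀ u < n, g (e u) = o u)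
    (h2 : ∀ u < n, g (o u) = e (u + 1)) (h3 : g (e n) = e 0) :
    (∀ u ≤ n, (g ^ (2 * n + 1)) (e u) = e u) ∧ ∀ u < n, (g ^ (2 * n + 1)) (o u) = o u := by
  have a1 : ∀ u ≤ n, (g ^ (2 * u)) (e 0) = e u := by
    intro u
    induction u with
    | zero => simp
    | succ u ih =>
      intro hu
      rw [show 2 * (u + 1) = 2 * u + 1 + 1 by ring, pow_succ', pow_succ', Perm.mul_apply,
        Perm.mul_apply, ih (by omega), h1 u (by omega), h2 u (by omega)]
  have a2 : (g ^ (2 * n + 1)) (e 0) = e 0 := by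
    rw [pow_succ', Perm.mul_apply, a1 n le_rfl, h3]
  have a3 : ∀ j, (g ^ (2 * n + 1)) ((g ^ j) (e 0)) = (g ^ j) (e 0) := fun j => by
    rw [← Perm.mul_apply, ← pow_add, add_comm, pow_add, Perm.mul_apply, a2]
  refine ⟨fun u hu => by rw [← a1 u hu, a3], fun u hu => ?_⟩
  rw [← h1 u hu, ← a1 u hu.le, ← Perm.mul_apply g, ← pow_succ', a3]

lemma ph_pow_fix (h : k + 2 ≤ t) (p : ℕ) (hp : p < 6 * t - 4 * k ∨ 6 * t + 6 * k < p) :
    (ph t k ^ (6 * t - 1)) p = p := by
  by_cases h0 : p = 0 ∨ 12 * t + 2 * k - 1 < p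
  · refine Perm.pow_apply_eq_self_of_apply_eq_self ?_ _
    rw [ph, Perm.mul_apply, pr_fix (fun j hj => by have := inb_blk h j hj; omega), rv_apply]
    split_ifs <;> omega
  have hx := cyc_fix (ph t k) (xe t k) (xo t k) (3 * t - 1) (fun u hu => x_eo h u (by omega))
    (fun u hu => x_oe h u (by omega)) (x_last h)
  have hy := cyc_fix (ph t k) (ye t k) (yo t k) (3 * t - 1) (fun u hu => y_eo h u (by omega))
    (fun u hu => y_oe h u (by omega)) (y_last h)
  rw [show 2 * (3 * t - 1) + 1 = 6 * t - 1 by omega] at hx hy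
  have X1 : ∀ u, u ≤ 3 * t - 1 → xe t k u = p → (ph t k ^ (6 * t - 1)) p = p :=
    fun u hu e => e ▸ hx.1 u hu
  have X2 : ∀ u, u < 3 * t - 1 → xo t k u = p → (ph t k ^ (6 * t - 1)) p = p :=
    fun u hu e => e ▸ hx.2 u hu
  have Y1 : ∀ u, u ≤ 3 * t - 1 → ye t k u = p → (ph t k ^ (6 * t - 1)) p = p :=
    fun u hu e => e ▸ hy.1 u hu
  have Y2 : ∀ u, u < 3 * t - 1 → yo t k u = p → (ph t k ^ (6 * t - 1)) p = p :=
    fun u hu e => e ▸ hy.2 u hu
  clear hx hy
  by_cases hpar : p % 2 = 1
  · by_cases c1 : p < 2 * t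
    · exact X2 (p / 2) (by omega) (by unfold xo; split_ifs <;> omega)
    by_cases c2 : p < 6 * t - 4 * k
    · exact Y1 (p / 2 - t) (by omega) (by unfold ye; split_ifs <;> omega)
    by_cases c3 : p = 12 * t + 2 * k - 1
    · exact X1 0 (by omega) (by unfold xe; split_ifs <;> omega)
    by_cases c4 : 10 * t + 2 * k < p
    · exact X2 (p / 2 - 3 * t - k) (by omega) (by unfold xo; split_ifs <;> omega)
    by_cases c5 : (p - (6 * t + 6 * k)) % 4 = 1
    · exact X2 ((p - (2 * t + 2 * k)) / 4) (by omega) (by unfold xo; split_ifs <;> omega)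
    · exact Y1 ((p + 2 * t - 2 * k) / 4) (by omega) (by unfold ye; split_ifs <;> omega)
  · by_cases c1 : p ≤ 2 * t
    · exact X1 (3 * t - p / 2) (by omega) (by unfold xe; split_ifs <;> omega)
    by_cases c2 : 10 * t + 2 * k ≤ p
    · exact X1 (6 * t + k - p / 2) (by omega) (by unfold xe; split_ifs <;> omega)
    by_cases c3 : 6 * t + 6 * k < p
    · exact Y2 (5 * t + k - 1 - p / 2) (by omega) (by unfold yo; split_ifs <;> omega)
    by_cases c5 : (p - 2 * t) % 4 = 0
    · exact X1 ((10 * t - p) / 4) (by omega) (by unfold xe; split_ifs <;> omega)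
    · exact Y2 ((14 * t - 6 - p) / 4) (by omega) (by unfold yo; split_ifs <;> omega)

/-- the tripling step with `2k+1` central wires -/
lemma good_triple (h : k + 2 ≤ t) {c : ℕ} (hc : Good (6 * t) c) :
    Good (18 * t + 2 * k - 2)
      (c + (6 * t - 1) * (6 * t + k - 1) + ((6 * t - 1) * (2 * t + k) + 100 * k * k)) := by
  obtain ⟨F, h1, h2, h3⟩ := exists_word (6 * t - 4 * k) (10 * k) (ph t k ^ (6 * t - 1))⁻¹
    (fun p hp => by rw [Perm.inv_eq_iff_eq, ph_pow_fix h p (by omega)])
  have := good_glue (q := 6 * t - 1) (P := 12 * t + 2 * k - 1) (c := c)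
    (d := (6 * t - 1) * (2 * t + k) + 100 * k * k) (by omega) (by omega)
    (by rwa [show 6 * t - 1 + 1 = 6 * t by omega]) (alt _ (blk t k)) (inb_alt (inb_blk h)) F
    (fun j hj => by have := h2 j hj; omega)
    (by rw [prodw_alt (inb_blk h), if_neg (by omega), h1, ← ph, mul_assoc, mul_inv_cancel, mul_one])
    (by
      simp only [cost_alt (show (12 * t + 2 * k - 1) % 2 = 1 by omega) (inb_blk h), cost_blk h,
        Finset.sum_const, Finset.card_range, smul_eq_mul]
      have := (cost_le_length F).trans h3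
      nlinarith)
  rwa [show 6 * t - 1 + (12 * t + 2 * k - 1) = 18 * t + 2 * k - 2 by omega,
    show (12 * t + 2 * k - 1) / 2 = 6 * t + k - 1 by omega] at this

end Pool.Agent.P.MP_894816_co
end

-- part Pool.Agent.P.MP_894816_co.Bridge
section

namespace Pool.Agent.P.MP_894816_co

open Equiv

def Rel {n : ℕ} (g : Perm ℕ) (cf : Config n) (fl : ℕ → ℕ) : Prop :=
  ∀ (i : Fin n) (a : Fin 2), (cf (i, a) : ℕ) = n - 1 - (g (2 * i + 1 + (a + fl i) % 2) - 1) / 2

lemma bridge_aux {n : ℕ} (w : List ℕ) : ∀ (g : Perm ℕ) (cf : Config n) (fl : ℕ → ℕ),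
    Inb (2 * n) w → Rel g cf fl → ∃ c : ℕ → Config n, c 0 = cf ∧
      (∀ t < cost w, Swap (c t) (c (t + 1))) ∧ ∃ fl', Rel (g * pr w) (c (cost w)) fl' := by
  induction w with
  | nil => intro g cf fl _ h; exact ⟨fun _ => cf, rfl, by simp, fl, by simpa using h⟩
  | cons k w ih =>
    intro g cf fl hi h
    obtain ⟨hk, hi'⟩ := inb_cons.1 hi
    by_cases hp : k % 2 = 0
    · have hi0 : k / 2 - 1 < n := by omega
      have hj0 : k / 2 < n := by omega
      have ha0 : (fl (k / 2 - 1) + 1) % 2 < 2 := by omega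
      have hb0 : fl (k / 2) % 2 < 2 := by omega
      have hr : Rel (g * s k) (cf ∘ swap ((⟨_, hi0⟩, ⟨_, ha0⟩) : Fin n × Fin 2)
          (⟨_, hj0⟩, ⟨_, hb0⟩)) fl := by
        intro i a
        rw [Function.comp_apply, swap_apply_def, Perm.mul_apply, s_apply]
        have ha := a.2
        simp only [Prod.mk.injEq, Fin.ext_iff]
        by_cases c1 : (i : ℕ) = k / 2 - 1 ∧ (a : ℕ) = (fl (k / 2 - 1) + 1) % 2
        · rw [if_pos c1, h, if_pos (by rw [c1.1, c1.2]; omega)]
          simp only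
          rw [show 2 * (k / 2) + 1 + (fl (k / 2) % 2 + fl (k / 2)) % 2 = k + 1 by omega]
        · rw [if_neg c1]
          by_cases c2 : (i : ℕ) = k / 2 ∧ (a : ℕ) = fl (k / 2) % 2
          · rw [if_pos c2, h, if_neg (by rw [c2.1, c2.2]; omega),
              if_pos (by rw [c2.1, c2.2]; omega)]
            simp only
            rw [show 2 * (k / 2 - 1) + 1 + ((fl (k / 2 - 1) + 1) % 2 + fl (k / 2 - 1)) % 2 = k by
              omega]
          · rw [if_neg c2, h, if_neg, if_neg]
            · intro e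
              have e1 : (i : ℕ) = k / 2 := by omega
              rw [e1] at e c2; omega
            · intro e
              have e1 : (i : ℕ) = k / 2 - 1 := by omega
              rw [e1] at e c1; omega
      obtain ⟨c, h0, h1, fl', h2⟩ := ih _ _ _ hi' hr
      refine ⟨fun t => Nat.casesOn t cf c, rfl, ?_, fl', ?_⟩
      · intro t ht
        cases t with
        | zero => exact ⟨_, _, _, _, by simp only; omega, h0⟩
        | succ t => exact h1 t (by rw [cost_cons, if_pos hp] at ht; omega)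
      · rw [cost_cons, if_pos hp, pr_cons, ← mul_assoc]; exact h2
    · have hr : Rel (g * s k) cf (fun j => if j = k / 2 then fl j + 1 else fl j) := by
        intro i a
        rw [h, Perm.mul_apply, s_apply]
        have ha := a.2
        congr 4
        simp only
        split_ifs <;> omega
      obtain ⟨c, h0, h1, fl', h2⟩ := ih _ _ _ hi' hr
      refine ⟨c, h0, ?_, fl', ?_⟩
      · intro t ht; exact h1 t (by rw [cost_cons, if_neg hp] at ht; omega)
      · rw [cost_cons, if_neg hp, pr_cons, ← mul_assoc]; exact h2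

lemma sorts_of_good {n c : ℕ} (h : Good (2 * n) c) : ∃ k ≤ c, SortsIn n k := by
  obtain ⟨w, h1, h2, h3⟩ := h
  obtain ⟨cs, h0, hs, fl, hr⟩ := bridge_aux (n := n) w 1 (fun p => p.1.rev) (fun _ => 0) h1 (by
    intro i a
    have := a.2
    simp only [Fin.val_rev, Perm.one_apply]; omega)
  refine ⟨cost w, h3, cs, h0, ?_, hs⟩
  funext ⟨i, a⟩
  apply Fin.ext
  rw [hr i a, one_mul, h2, rv_apply]
  have := i.2
  split_ifs <;> simp only <;> omega

end Pool.Agent.P.MP_894816_co
end

-- part Pool.Agent.P.MP_894816_co.Lower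
section

namespace Pool.Agent.P.MP_894816_co

open Equiv Finset

variable {n : ℕ}

def dd (i j : Fin n) : ℕ := if i < j then 2 else if i = j then 1 else 0

def potD (c : Config n) : ℕ := ∑ p, ∑ q, if c p < c q then dd p.1 q.1 else 0

def Start (c : Config n) (j : Fin n) : Prop :=
  (∀ a, c (j.rev, a) = j) ∧ ∀ p : Fin n × Fin 2, p.1 < j.rev → j < c p

open Classical in
noncomputable def ee (c : Config n) (j : Fin n) : ℕ :=
  if Start c j then 0 else if ∃ i, ∀ a, c (i, a) = j then 2 else 1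

noncomputable def potE (c : Config n) : ℕ := ∑ j, ee c j

def Two (c : Config n) : Prop := ∀ p q r, c p = c q → c q = c r → p = q ∨ q = r ∨ p = r

lemma two_swap {c c' : Config n} (h : Swap c c') (h2 : Two c) : Two c' := by
  obtain ⟨i, j, a, b, -, rfl⟩ := h
  intro p q r e1 e2
  simpa using h2 _ _ _ e1 e2

def ind (P : Prop) [Decidable P] : ℕ := if P then 1 else 0

lemma sum_pt (P Q : Fin n × Fin 2) (m : ℕ) :
    (∑ p : Fin n × Fin 2, ∑ q : Fin n × Fin 2, if p = P ∧ q = Q then m else 0) = m := by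
  rw [Finset.sum_eq_single P, Finset.sum_eq_single Q] <;> simp +contextual

lemma potD_step (c : Config n) (i j : Fin n) (a b : Fin 2) (hij : (j : ℕ) = i + 1) :
    potD (c ∘ swap (i, a) (j, b)) ≤ potD c + (2 + ind (c (i, a + 1) < c (i, a)) +
      ind (c (j, b) < c (i, a + 1)) + ind (c (j, b + 1) < c (i, a)) +
      ind (c (j, b) < c (j, b + 1))) := by
  have e : potD (c ∘ swap (i, a) (j, b)) = ∑ p, ∑ q, if c p < c q then
      dd (swap (i, a) (j, b) p).1 (swap (i, a) (j, b) q).1 else 0 := by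
    unfold potD
    rw [← Equiv.sum_comp (swap (i, a) (j, b))]
    refine Finset.sum_congr rfl fun p _ => ?_
    rw [← Equiv.sum_comp (swap (i, a) (j, b))]
    simp
  have e2 := sum_pt (j, b) (i, a) 2
  generalize hm : (∑ p : Fin n × Fin 2, ∑ q : Fin n × Fin 2,
    if p = (j, b) ∧ q = (i, a) then 2 else 0) = m2 at e2
  suffices potD (c ∘ swap (i, a) (j, b)) ≤ potD c + (m2 + ind (c (i, a + 1) < c (i, a)) +
      ind (c (j, b) < c (i, a + 1)) + ind (c (j, b + 1) < c (i, a)) +
      ind (c (j, b) < c (j, b + 1))) by omega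
  rw [e, ← hm, ← sum_pt (i, a + 1) (i, a) (ind (c (i, a + 1) < c (i, a))),
    ← sum_pt (j, b) (i, a + 1) (ind (c (j, b) < c (i, a + 1))),
    ← sum_pt (j, b + 1) (i, a) (ind (c (j, b + 1) < c (i, a))),
    ← sum_pt (j, b) (j, b + 1) (ind (c (j, b) < c (j, b + 1)))]
  unfold potD
  simp only [← Finset.sum_add_distrib]
  refine Finset.sum_le_sum fun p _ => Finset.sum_le_sum fun q _ => ?_
  by_cases hc : c p < c q
  swap
  · simp [hc]
  rw [if_pos hc, if_pos hc]
  have hne : p ≠ q := by rintro rfl; exact lt_irrefl _ hc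
  have key : ∀ (x : Fin n) (u v : Fin 2), (x, v) ≠ (x, u) → v = u + 1 := by
    intro x u v h
    have : v ≠ u := fun e => h (by rw [e])
    clear h; revert u v; decide
  by_cases p1 : p = (i, a)
  · subst p1
    rw [swap_apply_left]
    by_cases q1 : q = (j, b)
    · subst q1; rw [swap_apply_right]; unfold dd; simp only [Fin.lt_def, Fin.ext_iff]
      split_ifs <;> omega
    · rw [swap_apply_of_ne_of_ne hne.symm q1]; unfold dd; simp only [Fin.lt_def, Fin.ext_iff]
      split_ifs <;> omega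
  by_cases p2 : p = (j, b)
  · subst p2
    rw [swap_apply_right]
    by_cases q1 : q = (i, a)
    · subst q1; rw [swap_apply_left]; simp only [and_self, if_true]; unfold dd
      split_ifs <;> omega
    rw [swap_apply_of_ne_of_ne q1 hne.symm]
    obtain ⟨q, v⟩ := q
    by_cases q2 : q = i
    · subst q2
      obtain rfl := key _ _ _ q1
      simp only [and_self, if_true, ind, if_pos hc]; unfold dd
      simp only [Fin.lt_def, Fin.ext_iff]; split_ifs <;> omega
    by_cases q3 : q = j
    · subst q3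
      obtain rfl := key _ _ _ hne.symm
      simp only [and_self, if_true, ind, if_pos hc]; unfold dd
      simp only [Fin.lt_def, Fin.ext_iff]; split_ifs <;> omega
    · have : dd i q = dd j q := by
        unfold dd; simp only [Fin.lt_def, Fin.ext_iff] at q2 q3 ⊢; split_ifs <;> omega
      simp only [this]; omega
  rw [swap_apply_of_ne_of_ne p1 p2]
  by_cases q1 : q = (i, a)
  · subst q1
    rw [swap_apply_left]
    obtain ⟨p, v⟩ := p
    by_cases q2 : p = i
    · subst q2
      obtain rfl := key _ _ _ p1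
      simp only [and_self, if_true, ind, if_pos hc]; unfold dd
      simp only [Fin.lt_def, Fin.ext_iff]; split_ifs <;> omega
    by_cases q3 : p = j
    · subst q3
      obtain rfl := key _ _ _ p2
      simp only [and_self, if_true, ind, if_pos hc]; unfold dd
      simp only [Fin.lt_def, Fin.ext_iff]; split_ifs <;> omega
    · have : dd p j = dd p i := by
        unfold dd; simp only [Fin.lt_def, Fin.ext_iff] at q2 q3 ⊢; split_ifs <;> omega
      simp only [this]; omega
  by_cases q2 : q = (j, b)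
  · subst q2
    rw [swap_apply_right]
    have : dd p.1 i ≤ dd p.1 j := by
      unfold dd; simp only [Fin.lt_def, Fin.ext_iff]; split_ifs <;> omega
    simp only; omega
  · rw [swap_apply_of_ne_of_ne q1 q2]; omega

lemma ee_step {c : Config n} (h2 : Two c) (i j : Fin n) (a b : Fin 2) (hij : (j : ℕ) = i + 1)
    (m : Fin n) : ee (c ∘ swap (i, a) (j, b)) m ≤ ee c m +
      ((if c (i, a) = m then ind (c (i, a + 1) = c (i, a)) else 0) +
       (if c (j, b) = m then ind (c (j, b) = c (i, a + 1)) else 0) +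
       (if c (i, a) = m then ind (c (j, b + 1) = c (i, a)) else 0) +
       (if c (j, b) = m then ind (c (j, b) = c (j, b + 1)) else 0)) := by
  have hne : i ≠ j := by rintro rfl; omega
  have n1 : ∀ u : Fin 2, u + 1 ≠ u := by decide
  have f1 : swap (i, a) (j, b) (i, a + 1) = (i, a + 1) :=
    swap_apply_of_ne_of_ne (by simp [n1]) (by simp [hne])
  have f2 : swap (i, a) (j, b) (j, b + 1) = (j, b + 1) :=
    swap_apply_of_ne_of_ne (by simp [hne.symm]) (by simp [n1])
  have f3 : ∀ x u, x ≠ i → x ≠ j → swap (i, a) (j, b) (x, u) = (x, u) := fun x u h1 h2 =>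
    swap_apply_of_ne_of_ne (by simp [h1]) (by simp [h2])
  have both : ∀ x, (∀ u, (c ∘ swap (i, a) (j, b)) (x, u) = m) →
      (c (j, b) = m ∧ c (j, b) = c (i, a + 1)) ∨ (c (i, a) = m ∧ c (j, b + 1) = c (i, a)) ∨
      (x ≠ i ∧ x ≠ j ∧ ∀ u, c (x, u) = m) := by
    intro x hx
    by_cases c1 : x = i
    · subst c1
      have e1 := hx a; have e2 := hx (a + 1)
      simp only [Function.comp_apply, swap_apply_left, f1] at e1 e2
      exact Or.inl ⟨e1, e1.trans e2.symm⟩
    by_cases c2 : x = j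
    · subst c2
      have e1 := hx b; have e2 := hx (b + 1)
      simp only [Function.comp_apply, swap_apply_right, f2] at e1 e2
      exact Or.inr (Or.inl ⟨e1, e2.trans e1.symm⟩)
    · exact Or.inr (Or.inr ⟨c1, c2, fun u => by simpa [f3 x u c1 c2] using hx u⟩)
  unfold ee
  by_cases s0 : Start c m
  · rw [if_pos s0]
    by_cases c1 : m.rev = i ∨ m.rev = j
    · have one : (c (i, a) = m ∧ c (i, a + 1) = c (i, a)) ∨
          (c (j, b) = m ∧ c (j, b) = c (j, b + 1)) := by
        rcases c1 with c1 | c1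
        · left; rw [← c1]; exact ⟨s0.1 _, by rw [s0.1, s0.1]⟩
        · right; rw [← c1]; exact ⟨s0.1 _, by rw [s0.1, s0.1]⟩
      by_cases t : ∃ x, ∀ u, (c ∘ swap (i, a) (j, b)) (x, u) = m
      · obtain ⟨x, hx⟩ := t
        rcases both x hx with h | h | ⟨h3, h4, h5⟩
        · rcases one with o | o <;> simp only [ind, h.1, o.1, if_true, if_pos h.2, if_pos o.2] <;>
            split_ifs <;> omega
        · rcases one with o | o <;> simp only [ind, h.1, o.1, if_true, if_pos h.2, if_pos o.2] <;>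
            split_ifs <;> omega
        · have := h2 (x, 0) (x, 1) (m.rev, 0) (by rw [h5, h5]) (by rw [h5, s0.1])
          have hx' : x ≠ m.rev := by rcases c1 with c1 | c1 <;> rw [c1] <;> assumption
          simp [hx'] at this
      · rw [if_neg t]
        rcases one with o | o <;> simp only [ind, o.1, if_true, if_pos o.2] <;>
          split_ifs <;> omega
    · have : Start (c ∘ swap (i, a) (j, b)) m := by
        push Not at c1
        refine ⟨fun u => by simpa [f3 _ u c1.1 c1.2] using s0.1 u, fun p hp => s0.2 _ ?_⟩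
        have e1 := c1.1; have e2 := c1.2
        rw [swap_apply_def]
        split_ifs with h3 h4
        · subst h3; simp only [Fin.lt_def, Ne, Fin.ext_iff] at *; omega
        · subst h4; simp only [Fin.lt_def, Ne, Fin.ext_iff] at *; omega
        · exact hp
      rw [if_pos this]; omega
  · rw [if_neg s0]
    by_cases t0 : ∃ x, ∀ u, c (x, u) = m
    · rw [if_pos t0]; split_ifs <;> omega
    rw [if_neg t0]
    by_cases t : ∃ x, ∀ u, (c ∘ swap (i, a) (j, b)) (x, u) = m
    · obtain ⟨x, hx⟩ := t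
      rcases both x hx with h | h | ⟨_, _, h5⟩
      · simp only [ind, h.1, if_true, if_pos h.2]; split_ifs <;> omega
      · simp only [ind, h.1, if_true, if_pos h.2]; split_ifs <;> omega
      · exact absurd ⟨x, h5⟩ t0
    · rw [if_neg t]; split_ifs <;> omega

lemma pot_step {c c' : Config n} (h : Swap c c') (h2 : Two c) :
    potD c' + potE c' ≤ potD c + potE c + 6 := by
  obtain ⟨i, j, a, b, hij, rfl⟩ := h
  have h3 := potD_step c i j a b hij
  have h4 := Finset.sum_le_sum fun m (_ : m ∈ univ) => ee_step h2 i j a b hij m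
  simp only [Finset.sum_add_distrib, Finset.sum_ite_eq, mem_univ, if_true] at h4
  have h5 : ∀ x y : Fin n, ind (x < y) + ind (x = y) ≤ 1 := fun x y => by
    unfold ind; simp only [Fin.lt_def, Fin.ext_iff]; split_ifs <;> omega
  have := h5 (c (i, a + 1)) (c (i, a)); have := h5 (c (j, b)) (c (i, a + 1))
  have := h5 (c (j, b + 1)) (c (i, a)); have := h5 (c (j, b)) (c (j, b + 1))
  unfold potE; omega

lemma sum_lt_pairs (n : ℕ) :
    2 * (∑ i : Fin n, ∑ j : Fin n, if i < j then 1 else 0) + n = n * n := by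
  have h1 : (∑ i : Fin n, ∑ j : Fin n, if i < j then 1 else 0) =
      ∑ i : Fin n, ∑ j : Fin n, if j < i then 1 else 0 := Finset.sum_comm
  have h2 : (∑ i : Fin n, ∑ j : Fin n, if i = j then 1 else 0) = n := by simp
  have h3 : (∑ i : Fin n, ∑ j : Fin n, ((if i < j then 1 else 0) + (if j < i then 1 else 0) +
      if i = j then 1 else 0)) = ∑ _i : Fin n, ∑ _j : Fin n, 1 := by
    refine Finset.sum_congr rfl fun i _ => Finset.sum_congr rfl fun j _ => ?_
    simp only [Fin.lt_def, Fin.ext_iff]; split_ifs <;> omega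
  simp only [Finset.sum_add_distrib] at h3
  rw [h2, ← h1] at h3
  simp only [Finset.sum_const, card_univ, Fintype.card_fin, smul_eq_mul, mul_one] at h3
  omega

theorem lower (hn : 2 ≤ n) {k : ℕ} (h : SortsIn n k) : n * (2 * n - 1) ≤ 3 * k := by
  obtain ⟨c, h0, h1, hs⟩ := h
  have a0 : Two (c 0) := by
    rw [h0]
    rintro ⟨p, u⟩ ⟨q, v⟩ ⟨r, w⟩ e1 e2
    simp only [Fin.rev_inj] at e1 e2
    subst e1 e2
    simp only [Prod.mk.injEq, true_and]
    revert u v w; decide
  have b0 : potD (c 0) + potE (c 0) = 0 := by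
    rw [h0, Nat.add_eq_zero_iff]
    refine ⟨Finset.sum_eq_zero fun p _ => Finset.sum_eq_zero fun q _ => ?_,
      Finset.sum_eq_zero fun j _ => if_pos ⟨fun a => by simp, fun p hp => ?_⟩⟩
    · unfold dd; simp only [Fin.val_rev, Fin.lt_def, Fin.ext_iff]; split_ifs <;> omega
    · exact Fin.lt_rev_iff.1 hp
  have hall : ∀ t ≤ k, Two (c t) ∧ potD (c t) + potE (c t) ≤ 6 * t := by
    intro t
    induction t with
    | zero => intro _; exact ⟨a0, b0.le⟩
    | succ t ih =>
      intro ht
      obtain ⟨i1, i2⟩ := ih (by omega)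
      have := pot_step (hs t (by omega)) i1
      exact ⟨two_swap (hs t (by omega)) i1, by omega⟩
  have h2 := (hall k le_rfl).2
  have e1 : potD (c k) = 8 * ∑ i : Fin n, ∑ j : Fin n, if i < j then 1 else 0 := by
    rw [h1]; unfold potD dd
    simp only [Fintype.sum_prod_type, Fin.sum_univ_two, Finset.mul_sum, ← Finset.sum_add_distrib]
    refine Finset.sum_congr rfl fun i _ => Finset.sum_congr rfl fun j _ => ?_
    split_ifs <;> omega
  have e2 : potE (c k) = 2 * n := by
    have : ∀ j, ee (c k) j = 2 := by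
      intro j
      unfold ee
      rw [if_neg, if_pos ⟨j, fun a => by rw [h1]⟩]
      rw [h1]
      rintro ⟨s1, s2⟩
      have t1 := congrArg Fin.val (s1 0)
      have t2 := s2 (⟨0, by omega⟩, 0)
      have := j.2
      simp only [Fin.lt_def, Fin.val_rev] at t1 t2
      omega
    simp [potE, this, mul_comm]
  have h3 := sum_lt_pairs n
  obtain ⟨m, rfl⟩ : ∃ m, n = m + 1 := ⟨n - 1, by omega⟩
  rw [show 2 * (m + 1) - 1 = 2 * m + 1 by omega]
  nlinarith

end Pool.Agent.P.MP_894816_co
end

-- part Pool.Agent.P.MP_894816_co.Exact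
section

namespace Pool.Agent.P.MP_894816_co

open Equiv

/-- the doubling step -/
lemma good_double {m c : ℕ} (h : Good (2 * m + 2) c) : Good (4 * m + 2) (c + (2 * m + 1) * m) := by
  have hi : Inb (2 * m + 1) (lay m) := fun j hj => by have := lay_mem hj; omega
  have hg : ∀ p, (rv (2 * m + 1) * pr (lay m)) p = if 1 ≤ p ∧ p ≤ 2 * m then
      (if p % 2 = 1 then 2 * m + 1 - p else 2 * m + 3 - p) else if p = 2 * m + 1 then 1 else p :=
    fun p => by rw [Perm.mul_apply, pr_lay, rv_apply]; split_ifs <;> omega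
  have hc := cyc_fix (rv (2 * m + 1) * pr (lay m)) (fun u => 2 * u + 1) (fun u => 2 * m - 2 * u) m
    (fun u hu => by rw [hg]; split_ifs <;> omega) (fun u hu => by rw [hg]; split_ifs <;> omega)
    (by rw [hg]; split_ifs <;> omega)
  have hp : (rv (2 * m + 1) * pr (lay m)) ^ (2 * m + 1) = 1 := by
    ext p
    by_cases h0 : p = 0 ∨ 2 * m + 1 < p
    · exact Perm.pow_apply_eq_self_of_apply_eq_self (by rw [hg]; split_ifs <;> omega) _
    by_cases h1 : p % 2 = 1
    · have := hc.1 (p / 2) (by omega)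
      rwa [show 2 * (p / 2) + 1 = p by omega] at this
    · have := hc.2 (m - p / 2) (by omega)
      rwa [show 2 * m - 2 * (m - p / 2) = p by omega] at this
  have := good_glue (q := 2 * m + 1) (P := 2 * m + 1) (d := 0) (by omega) (by omega) h
    (alt _ (lay m)) (inb_alt hi) [] (inb_nil _)
    (by rw [prodw_alt hi, if_neg (by omega), hp, pr_nil, mul_one, mul_one])
    (by simp only [cost_alt (show (2 * m + 1) % 2 = 1 by omega) hi, cost_lay]; simp)
  rwa [show 2 * m + 1 + (2 * m + 1) = 4 * m + 2 by ring, show (2 * m + 1) / 2 = m by omega,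
    add_zero] at this

lemma good_exact (n : ℕ) (h3 : n % 3 = 1) (h4 : 4 ≤ n) :
    ∃ c, Good (2 * n) c ∧ 3 * c = n * (2 * n - 1) + 2 := by
  induction n using Nat.strong_induction_on with
  | _ n ih =>
    by_cases ho : n % 2 = 1
    · obtain ⟨m, rfl⟩ : ∃ m, n = 2 * m + 1 := ⟨n / 2, by omega⟩
      obtain ⟨c, h1, h2⟩ := ih (m + 1) (by omega) (by omega) (by omega)
      refine ⟨_, by rw [show 2 * (2 * m + 1) = 4 * m + 2 by ring]; exact good_double h1, ?_⟩
      rw [show 2 * (m + 1) - 1 = 2 * m + 1 by omega] at h2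
      rw [show 2 * (2 * m + 1) - 1 = 4 * m + 1 by omega, mul_add, h2]; ring
    have hc : n = 4 ∨ n = 10 ∨ n = 16 ∨ n = 22 ∨ n = 28 ∨ (∃ r, n = 34 + 12 * r) ∨
        ∃ r, n = 40 + 12 * r := by
      by_cases h : n < 34
      · omega
      by_cases h' : n % 12 = 10
      · exact .inr (.inr (.inr (.inr (.inr (.inl ⟨(n - 34) / 12, by omega⟩)))))
      · exact .inr (.inr (.inr (.inr (.inr (.inr ⟨(n - 40) / 12, by omega⟩)))))
    rcases hc with rfl | rfl | rfl | rfl | rfl | ⟨r, rfl⟩ | ⟨r, rfl⟩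
    · exact ⟨_, good_of_chk chk8 0, rfl⟩
    · exact ⟨_, good_of_chk chk20 0, rfl⟩
    · exact ⟨_, good_of_chk chk32 0, rfl⟩
    · exact ⟨_, good_of_chk chk44 0, rfl⟩
    · exact ⟨_, good_of_chk chk56 0, rfl⟩
    · refine ⟨_, good_of_chk chk68 r, ?_⟩
      rw [show 2 * (34 + 12 * r) - 1 = 67 + 24 * r by omega]; ring
    · refine ⟨_, good_of_chk chk80 r, ?_⟩
      rw [show 2 * (40 + 12 * r) - 1 = 79 + 24 * r by omega]; ring

lemma good_bounded (n : ℕ) (hn : 2 ≤ n) :
    ∃ c, Good (2 * n) c ∧ 3 * c ≤ n * (2 * n - 1) + 13000000 := by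
  by_cases hs : n < 1034
  · refine ⟨_, good_trivial (2 * n), ?_⟩
    nlinarith [Nat.zero_le (n * (2 * n - 1))]
  obtain ⟨r, k, hk, rfl⟩ : ∃ r k, k ≤ 107 ∧ n = 1034 + 108 * r + k :=
    ⟨(n - 1034) / 108, (n - 1034) % 108, by omega, by omega⟩
  have h1 := good_of_chk chk94 (r + 7)
  simp only at h1
  rw [show 2 * (47 + 18 * (r + 7)) = 2 * (172 + 18 * r) + 2 by ring] at h1
  have h2 := good_double h1
  rw [show 4 * (172 + 18 * r) + 2 = 6 * (115 + 12 * r) by ring] at h2
  have h3 := good_triple (k := k) (by omega) h2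
  refine ⟨_, by rwa [show 2 * (1034 + 108 * r + k) = 18 * (115 + 12 * r) + 2 * k - 2 by omega], ?_⟩
  rw [show 6 * (115 + 12 * r) - 1 = 689 + 72 * r by omega,
    show 6 * (115 + 12 * r) + k - 1 = 689 + 72 * r + k by omega,
    show 2 * (1034 + 108 * r + k) - 1 = 2067 + 216 * r + 2 * k by omega]
  nlinarith

end Pool.Agent.P.MP_894816_co
end
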