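import Pool.Agent.K.MP_894816_co.C4

namespace Pool.Agent.P.MP_894816_co

open Equiv Finset

variable {n : ℕ}

abbrev St := List (ℕ × ℕ)

/-- the moves that gain the full potential; a bin is stored as (larger, smaller) number -/
def sc : ℕ → St → List St
  | i, p :: q :: t =>
    (if q.2 ≤ p.2 ∧ q.1 ≤ p.1 ∧ (p.2 < p.1 ∨ i + p.1 = 5) ∧ (q.2 < q.1 ∨ i + 1 + q.2 = 5) then
      [(p.2, q.2) :: (p.1, q.1) :: t] else []) ++ (sc (i + 1) (q :: t)).map (p :: ·)
  | _, _ => []

def key : St → ℕ
  | [] => 1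
  | p :: t => key t * 64 + (p.1 * 8 + p.2)

/-- evaluate the number first -/
def frc {α : Type} (k : ℕ) (f : ℕ → α) : α := Nat.rec (f 0) (fun m _ => f m) (Nat.succ k)

lemma frc_eq {α : Type} (k : ℕ) (f : ℕ → α) : frc k f = f k := rfl

def unk : ℕ → ℕ → St
  | 0, _ => []
  | m + 1, k => frc (k % 64 / 8) fun a => frc (k % 8) fun b => frc (k / 64) fun c =>
      (a, b) :: unk m c

def mrg : ℕ → List ℕ → List ℕ → List ℕ
  | 0, A, B => A ++ B
  | _ + 1, [], B => B
  | _ + 1, a :: A, [] => a :: A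
  | f + 1, a :: A, b :: B =>
    bif Nat.ble a b then (bif Nat.ble b a then mrg f A (b :: B) else a :: mrg f A (b :: B))
    else b :: mrg f (a :: A) B

def pas : List (List ℕ) → List (List ℕ)
  | A :: B :: L => mrg 100000 A B :: pas L
  | L => L

def srt : ℕ → List (List ℕ) → List ℕ
  | 0, L => L.flatten
  | f + 1, L => srt f (pas L)

def nxt (L : List ℕ) : List ℕ :=
  srt 13 (L.flatMap fun k => (sc 0 (unk 6 k)).map fun u => frc (key u) fun a => [a])

def lev : ℕ → List ℕ → List ℕ
  | 0, L => L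
  | t + 1, L => lev t (nxt L)

theorem lev22 : (lev 22 [key [(5, 5), (4, 4), (3, 3), (2, 2), (1, 1), (0, 0)]]).all
    (fun k => k != key [(0, 0), (1, 1), (2, 2), (3, 3), (4, 4), (5, 5)]) = true := by
  decide +kernel

lemma mem_mrg (f : ℕ) : ∀ (A B : List ℕ) (x : ℕ), x ∈ A ∨ x ∈ B → x ∈ mrg f A B := by
  induction f with
  | zero => intro A B x h; exact List.mem_append.2 h
  | succ f ih =>
    intro A
    cases A with
    | nil => intro B x h; simpa [mrg] using h
    | cons a A =>
      intro B x h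
      cases B with
      | nil => simpa [mrg] using h
      | cons b B =>
        rw [mrg]
        have h1 := ih A (b :: B) x
        have h2 := ih (a :: A) B x
        simp only [List.mem_cons] at h h1 h2
        cases c1 : Nat.ble a b
        · rw [cond_false, List.mem_cons]; tauto
        · cases c2 : Nat.ble b a
          · rw [cond_true, cond_false, List.mem_cons]; tauto
          · obtain rfl := le_antisymm (Nat.le_of_ble_eq_true c1) (Nat.le_of_ble_eq_true c2)
            rw [cond_true, cond_true]; tauto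

lemma mem_pas : ∀ (L : List (List ℕ)) (x : ℕ), x ∈ L.flatten → x ∈ (pas L).flatten
  | [], _, h => h
  | [_], _, h => h
  | A :: B :: L, x, h => by
    have h1 := mem_mrg 100000 A B x
    have h2 := mem_pas L x
    simp only [pas, List.flatten_cons, List.mem_append] at h ⊢
    tauto

lemma mem_srt (f : ℕ) : ∀ (L : List (List ℕ)) (x : ℕ), x ∈ L.flatten → x ∈ srt f L := by
  induction f with
  | zero => intro L x h; exact h
  | succ f ih => intro L x h; exact ih _ _ (mem_pas L x h)

lemma unk_key (u : St) (h : ∀ p ∈ u, p.1 < 8 ∧ p.2 < 8) : unk u.length (key u) = u := by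
  induction u with
  | nil => rfl
  | cons p t ih =>
    obtain ⟨h1, h2⟩ := h p (by simp)
    rw [List.length_cons, key, unk, frc_eq, frc_eq, frc_eq, show (key t * 64 + (p.1 * 8 + p.2)) / 64 = key t by omega,
      ih fun q hq => h q (by simp [hq])]
    congr 2 <;> omega

lemma mem_nxt {L : List ℕ} {u v : St} (hu : key u ∈ L) (hl : u.length = 6)
    (h : ∀ p ∈ u, p.1 < 8 ∧ p.2 < 8) (hv : v ∈ sc 0 u) : key v ∈ nxt L := by
  refine mem_srt _ _ _ (List.mem_flatten.2 ⟨[key v], List.mem_flatMap.2 ⟨_, hu, ?_⟩, by simp⟩)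
  rw [← hl, unk_key u h]
  exact List.mem_map.2 ⟨v, hv, rfl⟩

lemma lev_succ (t : ℕ) : ∀ L, lev (t + 1) L = nxt (lev t L) := by
  induction t with
  | zero => intro L; rfl
  | succ t ih => intro L; rw [lev, ih]; rfl

def bin (c : Config 6) (i : Fin 6) : ℕ × ℕ := (max (c (i, 0)) (c (i, 1)), min (c (i, 0)) (c (i, 1)))

def enc (c : Config 6) : St := [bin c 0, bin c 1, bin c 2, bin c 3, bin c 4, bin c 5]

lemma two_cases : ∀ u v : Fin 2, v = u ∨ v = u + 1 := by decide

lemma tight {c : Config n} (h2 : Two c) (i j : Fin n) (a b : Fin 2) (hij : (j : ℕ) = i + 1)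
    (h : potD c + potE c + 6 ≤ potD (c ∘ swap (i, a) (j, b)) + potE (c ∘ swap (i, a) (j, b))) :
    c (i, a + 1) ≤ c (i, a) ∧ c (j, b) ≤ c (i, a + 1) ∧ c (j, b + 1) ≤ c (i, a) ∧
      c (j, b) ≤ c (j, b + 1) ∧ (c (i, a + 1) = c (i, a) → (c (i, a)).rev = i) ∧
      (c (j, b) = c (j, b + 1) → (c (j, b)).rev = j) := by
  have h3 := potD_step c i j a b hij
  have h4 := Finset.sum_le_sum fun m (_ : m ∈ univ) => ee_step h2 i j a b hij m
  have h6 : ∀ (x : Fin n) (u : Fin 2), c (x, u + 1) = c (x, u) → (c (x, u)).rev ≠ x →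
      ee (c ∘ swap (i, a) (j, b)) (c (x, u)) ≤ ee c (c (x, u)) := by
    intro x u e hx
    have hb : ∀ v, c (x, v) = c (x, u) := fun v => by
      rcases two_cases u v with rfl | rfl
      · rfl
      · exact e
    have hs : ¬ Start c (c (x, u)) := fun s => by
      have := h2 (x, 0) (x, 1) ((c (x, u)).rev, 0) ((hb 0).trans (hb 1).symm) ((hb 1).trans (s.1 0).symm)
      simp [hx.symm] at this
    have : ee c (c (x, u)) = 2 := by unfold ee; rw [if_neg hs, if_pos ⟨x, hb⟩]
    rw [this]; unfold ee; split_ifs <;> omega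
  have h7 : ∀ m, ee (c ∘ swap (i, a) (j, b)) m ≤ ee c m → 1 ≤
      ((if c (i, a) = m then ind (c (i, a + 1) = c (i, a)) else 0) +
       (if c (j, b) = m then ind (c (j, b) = c (i, a + 1)) else 0) +
       (if c (i, a) = m then ind (c (j, b + 1) = c (i, a)) else 0) +
       (if c (j, b) = m then ind (c (j, b) = c (j, b + 1)) else 0)) →
      potE (c ∘ swap (i, a) (j, b)) < potE c + (ind (c (i, a + 1) = c (i, a)) +
        ind (c (j, b) = c (i, a + 1)) + ind (c (j, b + 1) = c (i, a)) +
        ind (c (j, b) = c (j, b + 1))) := by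
    intro m e1 e2
    have := Finset.sum_lt_sum (fun m (_ : m ∈ univ) => ee_step h2 i j a b hij m)
      ⟨m, mem_univ _, by omega⟩
    simpa only [Finset.sum_add_distrib, Finset.sum_ite_eq, mem_univ, if_true, potE] using this
  simp only [Finset.sum_add_distrib, Finset.sum_ite_eq, mem_univ, if_true] at h4
  have h5 : ∀ x y : Fin n, ind (x < y) + ind (x = y) ≤ 1 ∧
      (ind (x < y) + ind (x = y) = 1 → x ≤ y) := fun x y => by
    unfold ind; simp only [Fin.lt_def, Fin.ext_iff, Fin.le_def]; split_ifs <;> omega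
  have a1 := h5 (c (i, a + 1)) (c (i, a)); have a2 := h5 (c (j, b)) (c (i, a + 1))
  have a3 := h5 (c (j, b + 1)) (c (i, a)); have a4 := h5 (c (j, b)) (c (j, b + 1))
  have h8 : potE (c ∘ swap (i, a) (j, b)) ≤ potE c + (ind (c (i, a + 1) = c (i, a)) +
        ind (c (j, b) = c (i, a + 1)) + ind (c (j, b + 1) = c (i, a)) +
        ind (c (j, b) = c (j, b + 1))) := h4
  refine ⟨a1.2 (by omega), a2.2 (by omega), a3.2 (by omega), a4.2 (by omega), fun e => ?_,
    fun e => ?_⟩
  · by_contra hx
    have := h7 _ (h6 i a e hx) (by rw [if_pos rfl, ind, if_pos e]; omega)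
    omega
  · by_contra hx
    have := h7 _ (h6 j b e.symm hx) (by
      have : ind (c (j, b) = c (j, b + 1)) = 1 := if_pos e
      rw [if_pos (rfl : c (j, b) = c (j, b)), if_pos (rfl : c (j, b) = c (j, b))]; omega)
    omega

lemma bin_eq (c : Config 6) (i : Fin 6) (a : Fin 2) (h : c (i, a + 1) ≤ c (i, a)) :
    bin c i = (((c (i, a) : Fin 6) : ℕ), ((c (i, a + 1) : Fin 6) : ℕ)) := by
  unfold bin
  rcases two_cases 0 a with rfl | rfl
  · rw [max_eq_left (by exact_mod_cast h), min_eq_right (by exact_mod_cast h)]; rfl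
  · rw [max_eq_right (by exact_mod_cast h), min_eq_left (by exact_mod_cast h)]; rfl

lemma enc_step {c c' : Config 6} (hs : Swap c c') (h2 : Two c)
    (h : potD c + potE c + 6 ≤ potD c' + potE c') : enc c' ∈ sc 0 (enc c) := by
  obtain ⟨i, j, a, b, hij, rfl⟩ := hs
  obtain ⟨t1, t2, t3, t4, t5, t6⟩ := tight h2 i j a b hij h
  have hne : i ≠ j := by rintro rfl; omega
  have n1 : ∀ u : Fin 2, u + 1 ≠ u := by decide
  have n2 : ∀ u : Fin 2, u + 1 + 1 = u := by decide
  have f1 : swap (i, a) (j, b) (i, a + 1) = (i, a + 1) :=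
    swap_apply_of_ne_of_ne (by simp [n1]) (by simp [hne])
  have f2 : swap (i, a) (j, b) (j, b + 1) = (j, b + 1) :=
    swap_apply_of_ne_of_ne (by simp [hne.symm]) (by simp [n1])
  have e1 := bin_eq c i a t1
  have e2 := bin_eq c j (b + 1) (by rw [n2]; exact t4)
  have e3 := bin_eq (c ∘ swap (i, a) (j, b)) i (a + 1) (by
    simp only [n2, Function.comp_apply, swap_apply_left, f1]; exact t2)
  have e4 := bin_eq (c ∘ swap (i, a) (j, b)) j b (by
    simp only [Function.comp_apply, swap_apply_right, f2]; exact t3)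
  have e5 : ∀ x, x ≠ i → x ≠ j → bin (c ∘ swap (i, a) (j, b)) x = bin c x := fun x h1 h2 => by
    have f3 : ∀ u, swap (i, a) (j, b) (x, u) = (x, u) := fun u =>
      swap_apply_of_ne_of_ne (by simp [h1]) (by simp [h2])
    simp only [bin, Function.comp_apply, f3]
  simp only [n2, Function.comp_apply, swap_apply_left, swap_apply_right, f1, f2] at e2 e3 e4
  have k1 : (bin c j).2 ≤ (bin c i).2 ∧ (bin c j).1 ≤ (bin c i).1 ∧
      ((bin c i).2 < (bin c i).1 ∨ i + (bin c i).1 = 5) ∧
      ((bin c j).2 < (bin c j).1 ∨ i + 1 + (bin c j).2 = 5) := by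
    rw [e1, e2]
    simp only [Fin.le_def, Fin.ext_iff, Fin.val_rev] at t1 t2 t3 t4 t5 t6
    have := (c (i, a)).2; have := (c (j, b)).2
    dsimp only; omega
  have k2 : bin (c ∘ swap (i, a) (j, b)) i = ((bin c i).2, (bin c j).2) := by rw [e3, e1, e2]
  have k3 : bin (c ∘ swap (i, a) (j, b)) j = ((bin c i).1, (bin c j).1) := by rw [e4, e1, e2]
  have k4 : (i = 0 ∧ j = 1) ∨ (i = 1 ∧ j = 2) ∨ (i = 2 ∧ j = 3) ∨ (i = 3 ∧ j = 4) ∨
      (i = 4 ∧ j = 5) := by
    have := j.2
    simp only [Fin.ext_iff]; norm_num; omega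
  unfold enc
  generalize c ∘ swap (i, a) (j, b) = d at k2 k3 e5 ⊢
  rcases k4 with ⟨rfl, rfl⟩ | ⟨rfl, rfl⟩ | ⟨rfl, rfl⟩ | ⟨rfl, rfl⟩ | ⟨rfl, rfl⟩
  · rw [k2, k3, e5 2 (by decide) (by decide), e5 3 (by decide) (by decide),
      e5 4 (by decide) (by decide), e5 5 (by decide) (by decide), sc, if_pos (by simpa using k1)]
    simp
  · rw [k2, k3, e5 0 (by decide) (by decide), e5 3 (by decide) (by decide),
      e5 4 (by decide) (by decide), e5 5 (by decide) (by decide), sc, sc,
      if_pos (c := (bin c 2).2 ≤ (bin c 1).2 ∧ _) (by simpa using k1)]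
    simp
  · rw [k2, k3, e5 0 (by decide) (by decide), e5 1 (by decide) (by decide),
      e5 4 (by decide) (by decide), e5 5 (by decide) (by decide), sc, sc, sc,
      if_pos (c := (bin c 3).2 ≤ (bin c 2).2 ∧ _) (by simpa using k1)]
    simp
  · rw [k2, k3, e5 0 (by decide) (by decide), e5 1 (by decide) (by decide),
      e5 2 (by decide) (by decide), e5 5 (by decide) (by decide), sc, sc, sc, sc,
      if_pos (c := (bin c 4).2 ≤ (bin c 3).2 ∧ _) (by simpa using k1)]
    simp
  · rw [k2, k3, e5 0 (by decide) (by decide), e5 1 (by decide) (by decide),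
      e5 2 (by decide) (by decide), e5 3 (by decide) (by decide), sc, sc, sc, sc, sc,
      if_pos (c := (bin c 5).2 ≤ (bin c 4).2 ∧ _) (by simpa using k1)]
    simp

theorem not_six : ¬ SortsIn 6 22 := by
  rintro ⟨c, h0, h1, hs⟩
  have a0 : Two (c 0) := by
    rw [h0]
    rintro ⟨p, u⟩ ⟨q, v⟩ ⟨r, w⟩ e1 e2
    simp only [Fin.rev_inj] at e1 e2
    subst e1 e2
    simp only [Prod.mk.injEq, true_and]
    revert u v w; decide
  have b0 : potD (c 0) + potE (c 0) = 0 := by
    rw [h0, Nat.add_eq_zero_iff]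
    exact ⟨by decide, Finset.sum_eq_zero fun j _ =>
      if_pos ⟨fun a => by simp, fun p hp => Fin.lt_rev_iff.1 hp⟩⟩
  have e1 : potD (c 22) = 120 := by rw [h1]; decide
  have e2 : potE (c 22) = 12 := by
    have : ∀ j, ee (c 22) j = 2 := by
      intro j
      unfold ee
      rw [if_neg, if_pos ⟨j, fun a => by rw [h1]⟩]
      rw [h1]
      rintro ⟨s1, s2⟩
      have t1 := congrArg Fin.val (s1 0)
      have := j.2
      simp only [Fin.val_rev] at t1
      omega
    simp [potE, this]
  have hall : ∀ t ≤ 22, Two (c t) ∧ potD (c t) + potE (c t) ≤ 6 * t := by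
    intro t
    induction t with
    | zero => intro _; exact ⟨a0, b0.le⟩
    | succ t ih =>
      intro ht
      obtain ⟨i1, i2⟩ := ih (by omega)
      have := pot_step (hs t (by omega)) i1
      exact ⟨two_swap (hs t (by omega)) i1, by omega⟩
  have hlow : ∀ d ≤ 22, 6 * (22 - d) ≤ potD (c (22 - d)) + potE (c (22 - d)) := by
    intro d
    induction d with
    | zero => intro _; rw [Nat.sub_zero, e1, e2]
    | succ d ih =>
      intro hd
      have h3 := pot_step (hs (22 - (d + 1)) (by omega)) (hall _ (by omega)).1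
      rw [show 22 - (d + 1) + 1 = 22 - d by omega] at h3
      have := ih (by omega)
      omega
  have hm : ∀ t ≤ 22, key (enc (c t)) ∈
      lev t [key [(5, 5), (4, 4), (3, 3), (2, 2), (1, 1), (0, 0)]] := by
    intro t
    induction t with
    | zero => intro _; rw [h0]; decide
    | succ t ih =>
      intro ht
      have h3 := hlow (22 - (t + 1)) (by omega)
      rw [show 22 - (22 - (t + 1)) = t + 1 by omega] at h3
      have h4 := (hall t (by omega)).2
      rw [lev_succ]
      refine mem_nxt (ih (by omega)) rfl (fun p hp => ?_)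
        (enc_step (hs t (by omega)) (hall t (by omega)).1 (by omega))
      have : ∀ i, (bin (c t) i).1 < 8 ∧ (bin (c t) i).2 < 8 := fun i => by
        have := (c t (i, 0)).2; have := (c t (i, 1)).2
        unfold bin; dsimp only; omega
      simp only [enc, List.mem_cons, List.not_mem_nil, or_false] at hp
      rcases hp with rfl | rfl | rfl | rfl | rfl | rfl <;> exact this _
  have h5 := List.all_eq_true.1 lev22 _ (hm 22 le_rfl)
  rw [h1] at h5
  exact absurd h5 (by decide)

end Pool.Agent.P.MP_894816_co
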